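import Pool.Agent.Helper36.Sidon.Fld

set_option autoImplicit false
set_option exponentiation.threshold 2000

/-!
# Meaning of a successful batch check
-/

namespace Pool.Agent.Helper36.Sidon

/-- the tables are right: `TP` holds `ψ ^ (2 ^ j) + 1`, `TR` the traces of `x ^ i` -/
structure Tab {K : Type*} [Field K] (x ψ : K) (TP TR : List ℕ) : Prop where
  hx : x ^ 46 = x + 1
  hTP : TRep x ψ TP 0
  lTP : TP.length = 46
  bTP : ∀ T ∈ TP, T < 2 ^ 459
  hTR : TrRep x TR 0
  lTR : TR.length = 46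

/-- `d` is an exponent with `tr (ψ ^ d) = 1`, strictly minimal among its rotations, all of which
are at most `top` -/
def Good {K : Type*} [Field K] (ψ : K) (top d : ℕ) : Prop :=
  d < 70368744177663 ∧ (ψ ^ d) ^ (2 ^ 23) = ψ ^ d + 1 ∧
    ∀ k < 45, d < rot^[k + 1] d ∧ rot^[k + 1] d ≤ top

/-- there are `n` good exponents in `[a, b)` -/
def Has {K : Type*} [Field K] (ψ : K) (top a b n : ℕ) : Prop :=
  ∃ S : Finset ℕ, S ⊆ Finset.Ico a b ∧ S.card = n ∧ ∀ d ∈ S, Good ψ top d

theorem Has.trans {K : Type*} [Field K] {ψ : K} {top a b c n n' : ℕ} (h : Has ψ top a b n)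
    (h' : Has ψ top b c n') (hab : a ≤ b) (hbc : b ≤ c) : Has ψ top a c (n + n') := by
  obtain ⟨S, hS, hc, hg⟩ := h
  obtain ⟨S', hS', hc', hg'⟩ := h'
  have hdisj : Disjoint S S' := by
    rw [Finset.disjoint_left]
    intro d hd hd'
    have h1 := Finset.mem_Ico.1 (hS hd)
    have h2 := Finset.mem_Ico.1 (hS' hd')
    omega
  refine ⟨S ∪ S', ?_, ?_, ?_⟩
  · intro d hd
    rcases Finset.mem_union.1 hd with h1 | h1
    · have := Finset.mem_Ico.1 (hS h1); exact Finset.mem_Ico.2 (by omega)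
    · have := Finset.mem_Ico.1 (hS' h1); exact Finset.mem_Ico.2 (by omega)
  · rw [Finset.card_union_of_disjoint hdisj, hc, hc']
  · intro d hd
    rcases Finset.mem_union.1 hd with h1 | h1
    · exact hg d h1
    · exact hg' d h1

theorem P_const_zero (z m : ℕ) : P z m (fun _ => 0) = 0 := by simp [P]

theorem batch_lanes {K : Type*} [Field K] [CharP K 2] {x ψ : K} {TP TR : List ℕ}
    (hT : Tab x ψ TP TR) {full mk1 top : ℕ} (hfull : full = 2 ^ 460 - 1) (hmk : mk1 = mk 10 46)
    (htop : top < 70368744177663) {m lo hi code : ℕ} (hhi : hi ≤ 70368744177663)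
    (h : batch full mk1 top TP TR m lo hi code = true) :
    (∀ e < m, lo ≤ dig code e ∧ dig code e < hi ∧ Good ψ top (dig code e)) ∧
      (∀ e e', e < e' → e' < m → dig code e < dig code e') := by
  unfold batch at h
  simp only [force_eq] at h
  rw [ones_eq, hfull, hmk] at h
  simp only [P_mul, one_mul] at h
  obtain ⟨_, h1, h2, h3⟩ := spr_spec _ _ _ _ _ _ h
  clear h
  refine ⟨?_, h2⟩
  rw [zero_mul, zero_add] at h3
  set d := dig code with hd
  have hdv : ∀ e < m, d e < 70368744177663 := fun e he => lt_of_lt_of_le (h1 e he).2 hhi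
  have hd920 : ∀ e < m, d e < 2 ^ 920 := fun e he => small_lt (lt_trans (hdv e he) (by norm_num))
  rw [Bool.and_eq_true, P_sub _ _ _ _ (fun e he => (hdv e he).le)] at h3
  obtain ⟨h4, h5⟩ := h3
  -- the trace part
  have hexp := expLoop_spec m d hd920 TP hT.bTP 0 (by rw [hT.lTP]; norm_num) (fun _ => 1)
    (fun _ _ => by norm_num)
  rw [Nat.shiftRight_zero] at hexp
  obtain ⟨hexp1, hexp2⟩ := hexp
  rw [hexp1] at h4
  have hY : ∀ e < m, Rep x 10 46 1 (expS TP 0 (d e) 1) (ψ ^ d e) := by
    intro e he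
    have h6 := expS_rep hT.hx ψ (d e) TP 0 1 hT.hTP (by
      rw [pow_zero, Nat.mod_one, pow_zero]; exact Rep.one x 10 46 (by norm_num))
    rw [hT.lTP, zero_add, Nat.mod_eq_of_lt (lt_trans (hdv e he) (by norm_num))] at h6
    exact h6
  have htr := trLoop_spec m (fun e => expS TP 0 (d e) 1)
    (fun e he => lt_of_lt_of_le (hexp2 e he) (Nat.pow_le_pow_right (by norm_num) (by norm_num)))
    TR 0 (by rw [hT.lTR]) (fun _ => 0)
  rw [mul_zero, Nat.shiftRight_zero, P_const_zero] at htr
  rw [htr, P_land (by norm_num) (fun e he => (trace_of_check hT.hTR hT.lTR (hY e he)).1)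
    (fun _ _ => lt_of_lt_of_le mk1_lt (Nat.pow_le_pow_right (by norm_num) (by norm_num))),
    Nat.beq_eq] at h4
  have h7 := P_inj (fun e _ => lt_of_le_of_lt Nat.and_le_right
    (lt_of_lt_of_le mk1_lt (Nat.pow_le_pow_right (by norm_num) (by norm_num))))
    (fun _ _ => Nat.one_lt_two_pow (by norm_num)) h4
  have h8 := rotLoop_spec m top htop d hdv 45 d hdv h5
  intro e he
  exact ⟨(h1 e he).1, (h1 e he).2, hdv e he,
    (trace_of_check hT.hTR hT.lTR (hY e he)).2 (h7 e he), fun k hk => h8 e he k hk⟩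

theorem batch_has {K : Type*} [Field K] [CharP K 2] {x ψ : K} {TP TR : List ℕ}
    (hT : Tab x ψ TP TR) {full mk1 top : ℕ} (hfull : full = 2 ^ 460 - 1) (hmk : mk1 = mk 10 46)
    (htop : top < 70368744177663) {m lo hi code : ℕ} (hhi : hi ≤ 70368744177663)
    (h : batch full mk1 top TP TR m lo hi code = true) : Has ψ top lo hi m := by
  obtain ⟨h1, h2⟩ := batch_lanes hT hfull hmk htop hhi h
  refine ⟨(Finset.range m).image (dig code), ?_, ?_, ?_⟩
  · intro d hd
    obtain ⟨e, he, rfl⟩ := Finset.mem_image.1 hd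
    have := h1 e (Finset.mem_range.1 he)
    exact Finset.mem_Ico.2 ⟨this.1, this.2.1⟩
  · rw [Finset.card_image_of_injOn, Finset.card_range]
    intro e he e' he' hee
    have he1 : e < m := by simpa using he
    have he2 : e' < m := by simpa using he'
    rcases Nat.lt_trichotomy e e' with h3 | h3 | h3
    · have := h2 e e' h3 he2; omega
    · exact h3
    · have := h2 e' e h3 he1; omega
  · intro d hd
    obtain ⟨e, he, rfl⟩ := Finset.mem_image.1 hd
    exact (h1 e (Finset.mem_range.1 he)).2.2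

end Pool.Agent.Helper36.Sidon
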