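import Pool.Agent.Helper36.Sidon.C01
import Pool.Agent.Helper36.Sidon.C02
import Pool.Agent.Helper36.Sidon.C03
import Pool.Agent.Helper36.Sidon.C04
import Pool.Agent.Helper36.Sidon.C05
import Pool.Agent.Helper36.Sidon.C06
import Pool.Agent.Helper36.Sidon.C07
import Pool.Agent.Helper36.Sidon.C08
import Pool.Agent.Helper36.Sidon.C09
import Pool.Agent.Helper36.Sidon.C10
import Pool.Agent.Helper36.Sidon.C11
import Pool.Agent.Helper36.Sidon.C12

set_option autoImplicit false
set_option maxRecDepth 100000
set_option exponentiation.threshold 100000000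

namespace Pool.Agent.Helper36.Sidon

theorem full_eq : FULL = 2 ^ 460 - 1 := by decide +kernel

theorem mk1_eq : MK1 = mk 10 46 := by decide +kernel

theorem tp_eq : TP = TQ.map (fun t => t + 1) := by decide +kernel

theorem tp_len : TP.length = 46 := by decide +kernel

theorem tr_len : TR.length = 46 := by decide +kernel

theorem tp_lt : ∀ T ∈ TP, T < 2 ^ 459 := by decide +kernel

/-- the representative of `ψ` -/
def PSI : ℕ := 0x40100401000010040000000004010000000400000010000000000000000040100000000010040100400000010040100401000000000000001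

theorem tq_eq : TQ = PSI :: TQ.tail := by decide +kernel

theorem psi_lt : PSI < 2 ^ 460 := by decide +kernel

theorem psi_mask : PSI &&& MK1 = PSI := by decide +kernel

theorem sq_chk : chkSq MK1 PSI TQ.tail = true := by decide +kernel

theorem tr_chk : chkTr MK1 (sqn MK1 23 1024) TR 1 1 = true := by decide +kernel

theorem top_lt : TOP < 70368744177663 := by decide +kernel

/-- the field -/
abbrev KK : Type := AlgebraicClosure (ZMod 2)

instance : CharP KK 2 :=
  charP_of_injective_algebraMap (algebraMap (ZMod 2) KK).injective 2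

theorem exists_root : ∃ x : KK, x ^ 46 = x + 1 := by
  obtain ⟨x, hx⟩ := IsAlgClosed.exists_root
    (Polynomial.X ^ 46 + Polynomial.X + 1 : Polynomial KK) (by
      have : (Polynomial.X ^ 46 + Polynomial.X + 1 : Polynomial KK).degree = 46 := by
        compute_degree!
      rw [this]; norm_num)
  refine ⟨x, ?_⟩
  have h1 : x ^ 46 + x + 1 = 0 := by simpa [Polynomial.IsRoot] using hx
  have h2 : (2 : KK) = 0 := two_eq_zero
  linear_combination h1 - (x + 1) * h2

theorem exists_tab : ∃ x ψ : KK, Tab x ψ TP TR := by
  obtain ⟨x, hx⟩ := exists_root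
  have hm := mk1_eq
  obtain ⟨ψ, hψ⟩ := exists_rep x psi_lt (by rw [← hm]; exact psi_mask)
  refine ⟨x, ψ, hx, ?_, tp_len, tp_lt, ?_, tr_len⟩
  · have h1 := chkSq_rep (ψ := ψ) hx TQ.tail 0 PSI (by rw [pow_zero, pow_one]; exact hψ)
      (by rw [← hm]; exact sq_chk)
    rw [← tq_eq, ← tp_eq] at h1
    exact h1
  · have h0 : Rep x 10 46 1 1024 x := by
      have := pow_rep x (i := 1) (by norm_num)
      rwa [pow_one, pow_one] at this
    have h1 := sqn_rep hx 23 1024 x h0
    have h2 := tr_chk
    rw [hm] at h2
    exact chkTr_rep hx h1 TR 0 1 (by rw [tr_len]) (by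
      rw [pow_zero, one_pow]; exact Rep.one x 10 46 (by norm_num)) h2

theorem pow_v : powK MK1 TP 70368744177663 = 1 := by decide +kernel

/-- a certificate -/
def CE0 : ℕ := 0x40000000000010000000001004010000000001000000040100401004010000100001000000040000000000010040000400004010040000401

theorem ce0_lt : CE0 < 2 ^ 460 := by decide +kernel

theorem ce0_mask : CE0 &&& MK1 = CE0 := by decide +kernel

theorem pow_0 : mulK MK1 (powK MK1 TP 23456248059221 + 1) CE0 = 1 := by decide +kernel

/-- a certificate -/
def CE1 : ℕ := 0x10000100400000010000100000004010000000401000010040000000004010040100000000010040100001000010000000000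

theorem ce1_lt : CE1 < 2 ^ 460 := by decide +kernel

theorem ce1_mask : CE1 &&& MK1 = CE1 := by decide +kernel

theorem pow_1 : mulK MK1 (powK MK1 TP 1497207322929 + 1) CE1 = 1 := by decide +kernel

/-- a certificate -/
def CE2 : ℕ := 0x100401004010000100401000000000100001004000000000401000010040000400000010040100000004010040100400004010000000001

theorem ce2_lt : CE2 < 2 ^ 460 := by decide +kernel

theorem ce2_mask : CE2 &&& MK1 = CE2 := by decide +kernel

theorem pow_2 : mulK MK1 (powK MK1 TP 394264623 + 1) CE2 = 1 := by decide +kernel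

/-- a certificate -/
def CE3 : ℕ := 0x40000001000010040000401004000000100001000010000000400004000040000400000010040000000004010000100000004000040000001

theorem ce3_lt : CE3 < 2 ^ 460 := by decide +kernel

theorem ce3_mask : CE3 &&& MK1 = CE3 := by decide +kernel

theorem pow_3 : mulK MK1 (powK MK1 TP 25165821 + 1) CE3 = 1 := by decide +kernel

theorem order_psi {x ψ : KK} (hT : Tab x ψ TP TR) : orderOf ψ = V := by
  have hm := mk1_eq
  apply orderOf_eq_of_pow_and_pow_div_prime (by norm_num)
  · exact pow_eq_one_of_check hT (by norm_num) (by rw [← hm]; exact pow_v)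
  · intro p hp hd
    have h3 : Nat.Prime 3 := by norm_num
    have h47 : Nat.Prime 47 := by norm_num
    have ha : Nat.Prime 178481 := by norm_num
    have hb : Nat.Prime 2796203 := by norm_num
    rw [show V = 3 * 47 * 178481 * 2796203 by norm_num] at hd
    rcases (Nat.Prime.dvd_mul hp).1 hd with hd | hd
    · rcases (Nat.Prime.dvd_mul hp).1 hd with hd | hd
      · rcases (Nat.Prime.dvd_mul hp).1 hd with hd | hd
        · rw [(Nat.prime_dvd_prime_iff_eq hp h3).1 hd, show V / 3 = 23456248059221 by norm_num]
          exact pow_ne_one_of_check hT (by norm_num) ce0_lt (by rw [← hm]; exact ce0_mask)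
            (by rw [← hm]; exact pow_0)
        · rw [(Nat.prime_dvd_prime_iff_eq hp h47).1 hd, show V / 47 = 1497207322929 by norm_num]
          exact pow_ne_one_of_check hT (by norm_num) ce1_lt (by rw [← hm]; exact ce1_mask)
            (by rw [← hm]; exact pow_1)
      · rw [(Nat.prime_dvd_prime_iff_eq hp ha).1 hd, show V / 178481 = 394264623 by norm_num]
        exact pow_ne_one_of_check hT (by norm_num) ce2_lt (by rw [← hm]; exact ce2_mask)
          (by rw [← hm]; exact pow_2)
    · rw [(Nat.prime_dvd_prime_iff_eq hp hb).1 hd, show V / 2796203 = 25165821 by norm_num]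
      exact pow_ne_one_of_check hT (by norm_num) ce3_lt (by rw [← hm]; exact ce3_mask)
        (by rw [← hm]; exact pow_3)

/-- the exceptional orbits -/
def CODEE : ℕ := 0xd77e7fffabf0519bc8bfffd035edf63fffd02e79e19ffff02445ffff42d01ffffc4ac4b01d891fffe8d01c7bfffdddf01affff3475b01af27fffa51013fffcae89100e3eeffff2b00affff5a0b300a2ffffb095009fffe8710f007d2b93ffff000004fec9950000038090ad

theorem batch_e : batch FULL MK1 70368744177662 TP TR 18 1 70368744177663 CODEE = true := by
  decide +kernel

/-- the exceptional orbits, as a list -/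
def EE : List ℕ := (List.range 18).map (dig CODEE)

theorem ee_nodup : EE.Nodup := by decide +kernel

theorem ee_ex : ∀ d ∈ EE, d < 161344131 ∨ ∃ k < 45, TOP < rot^[k + 1] d := by decide +kernel

theorem ee_cnt : cnt 161344131 TOP EE = 804 := by decide +kernel

theorem top_val : TOP = 70367778941762 := by decide +kernel

/-- A Sidon set of 8388584 positive integers up to 70367617597632. -/
theorem big_sidon : ∃ A : Finset ℕ, A ⊆ Finset.Icc 1 70367617597632 ∧
    (∀ a ∈ A, ∀ b ∈ A, ∀ c ∈ A, ∀ d ∈ A,
      a + b = c + d → (a = c ∧ b = d) ∨ (a = d ∧ b = c)) ∧ 8388584 ≤ A.card := by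
  obtain ⟨x, ψ, hT⟩ := exists_tab
  have hψ := order_psi hT
  have hhas : Has ψ TOP 161344131 70368744177663 182343 := by
    have h0 := C01_has hT full_eq mk1_eq top_lt
    have h1 := h0.trans (C02_has hT full_eq mk1_eq top_lt) (by norm_num) (by norm_num)
    have h2 := h1.trans (C03_has hT full_eq mk1_eq top_lt) (by norm_num) (by norm_num)
    have h3 := h2.trans (C04_has hT full_eq mk1_eq top_lt) (by norm_num) (by norm_num)
    have h4 := h3.trans (C05_has hT full_eq mk1_eq top_lt) (by norm_num) (by norm_num)
    have h5 := h4.trans (C06_has hT full_eq mk1_eq top_lt) (by norm_num) (by norm_num)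
    have h6 := h5.trans (C07_has hT full_eq mk1_eq top_lt) (by norm_num) (by norm_num)
    have h7 := h6.trans (C08_has hT full_eq mk1_eq top_lt) (by norm_num) (by norm_num)
    have h8 := h7.trans (C09_has hT full_eq mk1_eq top_lt) (by norm_num) (by norm_num)
    have h9 := h8.trans (C10_has hT full_eq mk1_eq top_lt) (by norm_num) (by norm_num)
    have h10 := h9.trans (C11_has hT full_eq mk1_eq top_lt) (by norm_num) (by norm_num)
    have h11 := h10.trans (C12_has hT full_eq mk1_eq top_lt) (by norm_num) (by norm_num)
    exact h11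
  have hE : ∀ d ∈ EE, Good ψ (V - 1) d := by
    intro d hd
    obtain ⟨e, he, rfl⟩ := List.mem_map.1 hd
    exact ((batch_lanes hT full_eq mk1_eq (by norm_num) (by norm_num) batch_e).1 e
      (List.mem_range.1 he)).2.2
  have ht := top_val
  have h := exists_sidon hψ (lo := 161344131) (top := TOP) (M := 8388584) (by norm_num) top_lt
    (by rw [ht]; norm_num) (by
      intro _
      have h1 := main_count hψ hhas ee_nodup hE ee_ex ee_cnt (by norm_num) (by rw [ht]; norm_num)
      exact h1)
  obtain ⟨A, hA1, hA2, hA3⟩ := h
  refine ⟨A, ?_, hA2, hA3⟩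
  rw [ht] at hA1
  exact hA1

end Pool.Agent.Helper36.Sidon
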