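import Pool.Agent.Helper36.Sidon.Spec

set_option autoImplicit false
set_option exponentiation.threshold 2000

/-!
# Meaning of the scalar program in a field of characteristic two with `x ^ 46 = x + 1`
-/

namespace Pool.Agent.Helper36.Sidon

variable {K : Type*} [Field K] [CharP K 2]

theorem two_eq_zero : (2 : K) = 0 := by exact_mod_cast CharP.cast_eq_zero K 2

theorem add_self' (y : K) : y + y = 0 := by
  rw [← two_mul, two_eq_zero, zero_mul]

omit [CharP K 2] in
theorem rep1025 (x : K) : Rep x 10 2 1 1025 (x + 1) := by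
  refine ⟨fun _ => 1, fun _ => le_rfl, ?_, ?_⟩
  · simp [Finset.sum_range_succ]
  · simp [Finset.sum_range_succ]; ring

theorem pow460 : ((2:ℕ) ^ 10) ^ 46 = 2 ^ 460 := by rw [← pow_mul]

theorem fold_rep {x : K} (hx : x ^ 46 = x + 1) {t : ℕ} {Y : K} (h : Rep x 10 91 93 t Y) :
    Rep x 10 46 1 (((t &&& (2 ^ 460 - 1)) + ((t >>> 460) &&& (2 ^ 460 - 1)) * 1025) &&& mk 10 46)
      Y := by
  obtain ⟨y0, y1, h0, h1, hY⟩ := h.split (by norm_num) (show 91 = 46 + 45 by norm_num)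
  have e1 : t &&& (2 ^ 460 - 1) = t % ((2:ℕ) ^ 10) ^ 46 := by
    rw [pow460]; exact Nat.and_two_pow_sub_one_eq_mod t 460
  have e2 : t >>> 460 = t / ((2:ℕ) ^ 10) ^ 46 := by
    rw [pow460]; exact Nat.shiftRight_eq_div_pow t 460
  have h1lt : t / ((2:ℕ) ^ 10) ^ 46 < 2 ^ 460 := by
    refine lt_of_lt_of_le (h1.lt (by norm_num)) ?_
    rw [← pow_mul]; exact Nat.pow_le_pow_right (by norm_num) (by norm_num)
  have e3 : (t >>> 460) &&& (2 ^ 460 - 1) = t / ((2:ℕ) ^ 10) ^ 46 := by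
    rw [e2]
    have := Nat.and_two_pow_sub_one_eq_mod (t / ((2:ℕ) ^ 10) ^ 46) 460
    rw [this, Nat.mod_eq_of_lt h1lt]
  rw [e1, e3, mul_comm]
  have h3 := (rep1025 x).mul h1 (D := 46) (C := 186) (by norm_num) (by norm_num)
  have h4 := (h0.add h3).mask (by norm_num) (by norm_num)
  rwa [show y0 + (x + 1) * y1 = Y by rw [hY, hx]] at h4

theorem stepS_rep {x : K} (hx : x ^ 46 = x + 1) {T y b : ℕ} {τ Y : K}
    (hT : Rep x 10 46 2 T (τ + 1)) (hb : b ≤ 1) (hy : Rep x 10 46 1 y Y) :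
    Rep x 10 46 1 (stepS T b y) (if b = 1 then Y * τ else Y) := by
  unfold stepS
  apply fold_rep hx
  have hylt : y < 2 ^ 460 := by
    have := hy.lt (by norm_num); rwa [pow460] at this
  rcases Nat.le_one_iff_eq_zero_or_eq_one.1 hb with h0 | h0
  · rw [h0]
    simp only [zero_mul, Nat.and_zero, zero_add, zero_ne_one, if_false]
    exact hy.mono (by norm_num) (by norm_num)
  · rw [h0]
    have e1 : y &&& (1 * (2 ^ 460 - 1)) = y := by
      rw [one_mul]
      have := Nat.and_two_pow_sub_one_eq_mod y 460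
      rw [this, Nat.mod_eq_of_lt hylt]
    rw [e1, if_pos rfl]
    have h1 := (hy.mul hT (D := 91) (C := 92) (by norm_num) (by norm_num)).add
      (hy.mono (d' := 91) (c' := 1) (by norm_num) le_rfl)
    rwa [show Y * (τ + 1) + Y = Y * τ by
      rw [mul_add, mul_one, add_assoc, add_self', add_zero]] at h1

/-- `L` is the table of `ψ ^ (2 ^ i) + 1` for `i ≥ j` -/
def TRep (x ψ : K) : List ℕ → ℕ → Prop
  | [], _ => True
  | T :: L, j => Rep x 10 46 2 T (ψ ^ (2 ^ j) + 1) ∧ TRep x ψ L (j + 1)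

theorem expS_rep {x : K} (hx : x ^ 46 = x + 1) (ψ : K) (d : ℕ) : ∀ (L : List ℕ) (j y : ℕ),
    TRep x ψ L j → Rep x 10 46 1 y (ψ ^ (d % 2 ^ j)) →
      Rep x 10 46 1 (expS L j d y) (ψ ^ (d % 2 ^ (j + L.length))) := by
  intro L
  induction L with
  | nil => intro j y _ h; exact h
  | cons T L ih =>
    intro j y hL h
    obtain ⟨hT, hL'⟩ := hL
    have h1 := stepS_rep hx hT (b := (d >>> j) &&& 1) Nat.and_le_right h
    have h2 : (if (d >>> j) &&& 1 = 1 then ψ ^ (d % 2 ^ j) * ψ ^ (2 ^ j) else ψ ^ (d % 2 ^ j)) =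
        ψ ^ (d % 2 ^ (j + 1)) := by
      rw [pow_succ 2 j, Nat.mod_mul, pow_add, Nat.and_one_is_mod, Nat.shiftRight_eq_div_pow]
      rcases Nat.mod_two_eq_zero_or_one (d / 2 ^ j) with h5 | h5 <;> rw [h5] <;> simp
    rw [h2] at h1
    have h3 := ih (j + 1) _ hL' h1
    rw [List.length_cons, show j + (L.length + 1) = j + 1 + L.length by ring]
    exact h3

/-- `L` is the table of the traces of `x ^ k` for `k ≥ i` -/
def TrRep (x : K) : List ℕ → ℕ → Prop
  | [], _ => True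
  | τ :: L, i => Rep x 10 46 1 τ ((x ^ i) ^ (2 ^ 23) + x ^ i) ∧ TrRep x L (i + 1)

theorem digit_eq {a : ℕ → ℕ} (ha : ∀ i, a i ≤ 1) {y : ℕ}
    (hy : y = ∑ i ∈ Finset.range 46, a i * (2 ^ 10) ^ i) {i : ℕ} (hi : i < 46) :
    (y >>> (10 * i)) &&& 1 = a i := by
  have h1 := P_testBit 10 (by norm_num) 46 a
    (fun e _ => lt_of_le_of_lt (ha e) (by norm_num)) (10 * i)
  have h2 : P 10 46 a = y := hy.symm
  rw [h2, Nat.mul_div_cancel_left _ (by norm_num), Nat.mul_mod_right] at h1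
  rw [Nat.and_one_is_mod, Nat.shiftRight_eq_div_pow, ← Nat.toNat_testBit, h1]
  have h3 := ha i
  rcases Nat.le_one_iff_eq_zero_or_eq_one.1 h3 with h4 | h4 <;> rw [h4] <;> simp [hi]

omit [CharP K 2] in
theorem trS_rep {x : K} {a : ℕ → ℕ} (ha : ∀ i, a i ≤ 1) {y : ℕ}
    (hy : y = ∑ i ∈ Finset.range 46, a i * (2 ^ 10) ^ i) : ∀ (L : List ℕ) (i acc c : ℕ) (A : K),
    TrRep x L i → i + L.length ≤ 46 → Rep x 10 46 c acc A →
      Rep x 10 46 (c + L.length) (trS L i y acc)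
        (A + ∑ k ∈ Finset.range L.length,
          (a (i + k) : K) * ((x ^ (i + k)) ^ (2 ^ 23) + x ^ (i + k))) := by
  intro L
  induction L with
  | nil => intro i acc c A _ _ h; simpa [trS] using h
  | cons τ L ih =>
    intro i acc c A hL hlen h
    obtain ⟨hτ, hL'⟩ := hL
    rw [List.length_cons] at hlen
    have hi : i < 46 := by omega
    have h1 : Rep x 10 46 (1 + c) (((y >>> (10 * i)) &&& 1) * τ + acc)
        ((a i : K) * ((x ^ i) ^ (2 ^ 23) + x ^ i) + A) := by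
      apply Rep.add _ h
      rw [digit_eq ha hy hi]
      rcases Nat.le_one_iff_eq_zero_or_eq_one.1 (ha i) with h4 | h4
      · rw [h4, zero_mul, Nat.cast_zero, zero_mul]; exact Rep.zero x 10 46 1
      · rw [h4, one_mul, Nat.cast_one, one_mul]; exact hτ
    have h2 := ih (i + 1) _ _ _ hL' (by omega) h1
    rw [List.length_cons, Finset.sum_range_succ']
    have e1 : 1 + c + L.length = c + (L.length + 1) := by ring
    have e2 : (a i : K) * ((x ^ i) ^ (2 ^ 23) + x ^ i) + A +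
        ∑ k ∈ Finset.range L.length, (a (i + 1 + k) : K) *
          ((x ^ (i + 1 + k)) ^ (2 ^ 23) + x ^ (i + 1 + k)) =
        A + (∑ k ∈ Finset.range L.length, (a (i + (k + 1)) : K) *
          ((x ^ (i + (k + 1))) ^ (2 ^ 23) + x ^ (i + (k + 1))) +
          (a (i + 0) : K) * ((x ^ (i + 0)) ^ (2 ^ 23) + x ^ (i + 0))) := by
      have e3 : ∀ k, i + 1 + k = i + (k + 1) := fun k => by ring
      simp only [e3, add_zero]
      ring
    rw [e1, e2] at h2
    exact h2

/-- if the trace check succeeds, the trace is one -/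
theorem trace_of_check {x : K} {TR : List ℕ} (hTR : TrRep x TR 0) (hlen : TR.length = 46) {y : ℕ}
    {Y : K} (hy : Rep x 10 46 1 y Y) :
    trS TR 0 y 0 < 2 ^ 920 ∧ (trS TR 0 y 0 &&& mk 10 46 = 1 → Y ^ (2 ^ 23) = Y + 1) := by
  obtain ⟨a, ha, hn, hY⟩ := hy
  have h1 := trS_rep (x := x) ha hn TR 0 0 0 0 hTR (by omega) (Rep.zero x 10 46 0)
  rw [hlen] at h1
  simp only [zero_add] at h1
  have h2 : ∑ k ∈ Finset.range 46, (a k : K) * ((x ^ k) ^ (2 ^ 23) + x ^ k) = Y ^ (2 ^ 23) + Y := by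
    have : Fact (Nat.Prime 2) := ⟨Nat.prime_two⟩
    have h5 := sum_pow_char_pow (R := K) 2 23 (Finset.range 46) (fun k => (a k : K) * x ^ k)
    rw [hY, h5, ← Finset.sum_add_distrib]
    apply Finset.sum_congr rfl
    intro k _
    rw [mul_pow, mul_add]
    congr 1
    rcases Nat.le_one_iff_eq_zero_or_eq_one.1 (ha k) with h4 | h4
    · rw [h4]; simp
    · rw [h4]; simp
  rw [h2] at h1
  refine ⟨?_, ?_⟩
  · refine lt_of_lt_of_le (h1.lt (by norm_num)) ?_
    rw [pow460]; exact Nat.pow_le_pow_right (by norm_num) (by norm_num)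
  · intro hc
    have h3 := h1.mask (by norm_num) (by norm_num)
    rw [hc] at h3
    have h4 := h3.unique (by norm_num) (Rep.one x 10 46 (by norm_num)) (by norm_num)
    calc Y ^ (2 ^ 23) = (Y ^ (2 ^ 23) + Y) + Y := by rw [add_assoc, add_self', add_zero]
      _ = Y + 1 := by rw [h4, add_comm]

end Pool.Agent.Helper36.Sidon
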