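import Pool.Agent.Helper36.Sidon.Rep

set_option autoImplicit false
set_option exponentiation.threshold 2000

/-!
# The verification program

Everything is written so that the kernel can run it quickly: `force` evaluates its first
argument before it is substituted.  The constants are for the field `𝔽₂[x]/(x^46 + x + 1)`:
coefficients are stored in digits of `10` bits, so that an element has `460` bits and a product
fits in a lane of `920` bits.
-/

namespace Pool.Agent.Helper36.Sidon

/-- evaluate `x` first -/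
noncomputable def force {α : Type} (x : ℕ) (f : ℕ → α) : α :=
  Nat.rec (motive := fun _ => α) (f 0) (fun b _ => f (b + 1)) x

@[simp] theorem force_eq {α : Type} (x : ℕ) (f : ℕ → α) : force x f = f x := by
  cases x <;> rfl

/-- the exponentiation loop: in every lane, `y ↦ y * ψ^(2^j)` if the `j`-th bit of `d` is set -/
noncomputable def expLoop (ones low mask full : ℕ) (L : List ℕ) : ℕ → ℕ → ℕ :=
  List.rec (motive := fun _ => ℕ → ℕ → ℕ) (fun _ y => y)
    (fun T _ ih D y =>
      force ((y &&& ((D &&& ones) * full)) * T + y) fun t =>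
      force (((t &&& low) + ((t >>> 460) &&& low) * 1025) &&& mask) fun y' =>
      force (D >>> 1) fun D' => ih D' y') L

/-- the trace loop: `∑ i, (i-th coefficient of y) * τ i` in every lane -/
noncomputable def trLoop (ones : ℕ) (L : List ℕ) : ℕ → ℕ → ℕ :=
  List.rec (motive := fun _ => ℕ → ℕ → ℕ) (fun _ acc => acc)
    (fun τ _ ih Y acc =>
      force ((Y &&& ones) * τ + acc) fun acc' =>
      force (Y >>> 10) fun Y' => ih Y' acc') L

/-- the rotation loop -/
noncomputable def rotLoop (ones ln hb c1 c2 : ℕ) (l : ℕ) : ℕ → Bool :=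
  Nat.rec (motive := fun _ => ℕ → Bool) (fun _ => true)
    (fun _ ih X =>
      force (((X * 2) &&& ln) + ((X >>> 45) &&& ones)) fun X' =>
      (Nat.beq ((X' + c1) &&& hb) hb && Nat.beq ((c2 - X') &&& hb) hb) && ih X') l

/-- read the digits of `code` (in base `2^48`) from the top, checking that they decrease, and
pack them into lanes of `920` bits -/
noncomputable def spr (k : ℕ → Bool) (lo code : ℕ) (m : ℕ) : ℕ → ℕ → Bool :=
  Nat.rec (motive := fun _ => ℕ → ℕ → Bool) (fun prev acc => Nat.ble lo prev && k acc)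
    (fun e ih prev acc =>
      force ((code >>> (48 * e)) % 281474976710656) fun d =>
      Nat.ble (d + 1) prev && force ((acc <<< 920) + d) fun acc' => ih d acc') m

/-- the check of a batch of `m` exponents with lower bound `lo`, upper bound `hi` (exclusive) and
bound `top` for all rotations; `TP` is the table of `ψ^(2^j) + 1`, `TR` the table of traces -/
noncomputable def batch (full mk1 top : ℕ) (TP TR : List ℕ) (m lo hi code : ℕ) : Bool :=
  force ((2 ^ (920 * m) - 1) / (2 ^ 920 - 1)) fun ones =>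
  force (ones * full) fun low =>
  force (ones * mk1) fun mask =>
  force (ones * 70368744177663) fun ln =>
  force (ones * 70368744177664) fun hb =>
  force (ones * (70368744177664 + top)) fun c2 =>
  spr (fun D =>
    (force (expLoop ones low mask full TP D ones) fun Y =>
      force (trLoop ones TR Y 0) fun A => Nat.beq (A &&& mask) ones) &&
    (force (ln - D) fun c1 => rotLoop ones ln hb c1 c2 45 D)) lo code m hi 0

/-! ## scalar versions -/

/-- one scalar step -/
def stepS (T b y : ℕ) : ℕ :=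
  ((((y &&& (b * (2 ^ 460 - 1))) * T + y) &&& (2 ^ 460 - 1)) +
    ((((y &&& (b * (2 ^ 460 - 1))) * T + y) >>> 460) &&& (2 ^ 460 - 1)) * 1025) &&& mk 10 46

/-- scalar exponentiation -/
def expS : List ℕ → ℕ → ℕ → ℕ → ℕ
  | [], _, _, y => y
  | T :: L, j, d, y => expS L (j + 1) d (stepS T ((d >>> j) &&& 1) y)

/-- scalar trace -/
def trS : List ℕ → ℕ → ℕ → ℕ → ℕ
  | [], _, _, acc => acc
  | τ :: L, i, y, acc => trS L (i + 1) y (((y >>> (10 * i)) &&& 1) * τ + acc)

/-- rotation -/
def rot (x : ℕ) : ℕ := ((x * 2) &&& 70368744177663) + ((x >>> 45) &&& 1)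

theorem expLoop_nil (ones low mask full D y : ℕ) : expLoop ones low mask full [] D y = y := rfl

theorem expLoop_cons (ones low mask full T : ℕ) (L : List ℕ) (D y : ℕ) :
    expLoop ones low mask full (T :: L) D y =
      expLoop ones low mask full L (D >>> 1)
        ((((((y &&& ((D &&& ones) * full)) * T + y) &&& low) +
          ((((y &&& ((D &&& ones) * full)) * T + y) >>> 460) &&& low) * 1025) &&& mask)) := by
  simp only [expLoop, force_eq]

theorem trLoop_nil (ones Y acc : ℕ) : trLoop ones [] Y acc = acc := rfl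

theorem trLoop_cons (ones τ : ℕ) (L : List ℕ) (Y acc : ℕ) :
    trLoop ones (τ :: L) Y acc = trLoop ones L (Y >>> 10) ((Y &&& ones) * τ + acc) := by
  simp only [trLoop, force_eq]

theorem rotLoop_zero (ones ln hb c1 c2 X : ℕ) : rotLoop ones ln hb c1 c2 0 X = true := rfl

theorem rotLoop_succ (ones ln hb c1 c2 l X : ℕ) : rotLoop ones ln hb c1 c2 (l + 1) X =
    ((Nat.beq (((((X * 2) &&& ln) + ((X >>> 45) &&& ones)) + c1) &&& hb) hb &&
      Nat.beq ((c2 - (((X * 2) &&& ln) + ((X >>> 45) &&& ones))) &&& hb) hb) &&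
      rotLoop ones ln hb c1 c2 l (((X * 2) &&& ln) + ((X >>> 45) &&& ones))) := by
  simp only [rotLoop, force_eq]

theorem spr_zero (k : ℕ → Bool) (lo code prev acc : ℕ) :
    spr k lo code 0 prev acc = (Nat.ble lo prev && k acc) := rfl

theorem spr_succ (k : ℕ → Bool) (lo code e prev acc : ℕ) :
    spr k lo code (e + 1) prev acc =
      (Nat.ble ((code >>> (48 * e)) % 281474976710656 + 1) prev &&
        spr k lo code e ((code >>> (48 * e)) % 281474976710656)
          ((acc <<< 920) + (code >>> (48 * e)) % 281474976710656)) := by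
  simp only [spr, force_eq]

theorem mk1_lt : mk 10 46 < 2 ^ 460 := by
  have h := P_lt (z := 10) (m := 46) (f := fun _ => 1) (fun _ _ => by norm_num)
  unfold P at h
  simp only [one_mul] at h
  have h2 : ((2:ℕ) ^ 10) ^ 46 = 2 ^ 460 := by rw [← pow_mul]
  rw [h2] at h
  exact h

theorem stepS_lt (T b y : ℕ) : stepS T b y < 2 ^ 460 := Nat.and_lt_two_pow _ mk1_lt

theorem ones_eq (m : ℕ) : (2 ^ (920 * m) - 1) / (2 ^ 920 - 1) = P 920 m (fun _ => 1) := by
  rw [pow_mul]
  unfold P
  simp only [one_mul]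
  generalize hZ : (2:ℕ) ^ 920 = Z
  have h2 : 2 ≤ Z := by
    rw [← hZ]
    calc (2:ℕ) = 2 ^ 1 := (pow_one 2).symm
      _ ≤ 2 ^ 920 := Nat.pow_le_pow_right (by norm_num) (by norm_num)
  exact (Nat.geomSum_eq h2 m).symm

/-- the exponentiation loop acts on every lane -/
theorem expLoop_spec (m : ℕ) (d : ℕ → ℕ) (hd : ∀ e < m, d e < 2 ^ 920) :
    ∀ (L : List ℕ), (∀ T ∈ L, T < 2 ^ 459) → ∀ (j : ℕ), j + L.length ≤ 460 → ∀ (y : ℕ → ℕ),
      (∀ e < m, y e < 2 ^ 460) →
      expLoop (P 920 m (fun _ => 1)) (P 920 m (fun _ => 2 ^ 460 - 1)) (P 920 m (fun _ => mk 10 46))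
        (2 ^ 460 - 1) L (P 920 m d >>> j) (P 920 m y) = P 920 m (fun e => expS L j (d e) (y e)) ∧
      ∀ e < m, expS L j (d e) (y e) < 2 ^ 460 := by
  intro L
  induction L with
  | nil =>
    intro _ j _ y hy
    exact ⟨rfl, hy⟩
  | cons T L ih =>
    intro hT j hj y hy
    have hT1 : T < 2 ^ 459 := hT T List.mem_cons_self
    have hlen : j + 1 + L.length ≤ 460 := by simp only [List.length_cons] at hj; omega
    have e920 : (2:ℕ) ^ 460 * 2 ^ 460 = 2 ^ 920 := by rw [← pow_add]
    have hb1 : ∀ e, ((d e >>> j) &&& 1) ≤ 1 := fun e => Nat.and_le_right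
    have hle : (2:ℕ) ^ 460 - 1 < 2 ^ 460 := Nat.sub_lt (Nat.two_pow_pos _) Nat.one_pos
    have hmono : (2:ℕ) ^ 460 ≤ 2 ^ 920 := Nat.pow_le_pow_right (by norm_num) (by norm_num)
    have hs1 : ∀ e, ((d e >>> j) &&& 1) * (2 ^ 460 - 1) < 2 ^ 460 := fun e =>
      lt_of_le_of_lt (Nat.mul_le_mul_right _ (hb1 e)) (by rw [one_mul]; exact hle)
    have ht : ∀ e < m, (y e &&& (((d e >>> j) &&& 1) * (2 ^ 460 - 1))) * T + y e < 2 ^ 920 := by
      intro e he
      have h1 : y e &&& (((d e >>> j) &&& 1) * (2 ^ 460 - 1)) ≤ 2 ^ 460 - 1 :=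
        le_trans Nat.and_le_right (Nat.le_sub_one_of_lt (hs1 e))
      have h2 : (y e &&& (((d e >>> j) &&& 1) * (2 ^ 460 - 1))) * T ≤ (2 ^ 460 - 1) * 2 ^ 459 :=
        Nat.mul_le_mul h1 hT1.le
      have h3 := hy e he
      have h4 : (2:ℕ) ^ 460 * 2 ^ 460 = 2 ^ 920 := e920
      calc _ < (2 ^ 460 - 1) * 2 ^ 459 + 2 ^ 460 := Nat.add_lt_add_of_le_of_lt h2 h3
        _ ≤ 2 ^ 460 * 2 ^ 459 + 2 ^ 460 * 2 ^ 459 :=
            Nat.add_le_add (Nat.mul_le_mul_right _ (Nat.sub_le _ _))
              (Nat.le_mul_of_pos_right _ (Nat.two_pow_pos _))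
        _ = 2 ^ 920 := by rw [← two_mul, ← mul_assoc, mul_comm 2, mul_assoc, ← pow_succ', ← pow_add]
    have hr : ∀ t, (t &&& (2 ^ 460 - 1)) + ((t >>> 460) &&& (2 ^ 460 - 1)) * 1025 < 2 ^ 920 := by
      intro t
      have h1 : t &&& (2 ^ 460 - 1) ≤ 2 ^ 460 - 1 := Nat.and_le_right
      have h2 : (t >>> 460) &&& (2 ^ 460 - 1) ≤ 2 ^ 460 - 1 := Nat.and_le_right
      calc _ ≤ (2 ^ 460 - 1) + (2 ^ 460 - 1) * 1025 :=
            Nat.add_le_add h1 (Nat.mul_le_mul_right _ h2)
        _ < 2 ^ 920 := by norm_num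
    have hstep : (((((P 920 m y &&& (((P 920 m d >>> j) &&& P 920 m (fun _ => 1)) * (2 ^ 460 - 1))) *
        T + P 920 m y) &&& P 920 m (fun _ => 2 ^ 460 - 1)) +
        ((((P 920 m y &&& (((P 920 m d >>> j) &&& P 920 m (fun _ => 1)) * (2 ^ 460 - 1))) *
        T + P 920 m y) >>> 460) &&& P 920 m (fun _ => 2 ^ 460 - 1)) * 1025) &&&
        P 920 m (fun _ => mk 10 46)) = P 920 m (fun e => stepS T ((d e >>> j) &&& 1) (y e)) := by
      rw [P_shift_land (by norm_num) hd (by omega) (fun _ _ => Nat.one_lt_two_pow (by omega)),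
        P_mul, P_land (by norm_num) (fun e he => lt_of_lt_of_le (hy e he) hmono)
          (fun e _ => lt_of_lt_of_le (hs1 e) hmono), P_mul, P_add,
        P_land (by norm_num) ht (fun _ _ => lt_of_lt_of_le hle hmono),
        P_shift_land (by norm_num) ht (by norm_num) (fun _ _ => hle), P_mul, P_add,
        P_land (by norm_num) (fun e _ => hr _) (fun _ _ => lt_of_lt_of_le mk1_lt hmono)]
      rfl
    rw [expLoop_cons, hstep, ← Nat.shiftRight_add]
    exact ih (fun T' hT' => hT T' (List.mem_cons_of_mem _ hT')) (j + 1) hlen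
      (fun e => stepS T ((d e >>> j) &&& 1) (y e)) (fun e _ => stepS_lt _ _ _)

/-- the trace loop acts on every lane -/
theorem trLoop_spec (m : ℕ) (y : ℕ → ℕ) (hy : ∀ e < m, y e < 2 ^ 920) :
    ∀ (L : List ℕ) (i : ℕ), 10 * (i + L.length) ≤ 460 → ∀ (acc : ℕ → ℕ),
      trLoop (P 920 m (fun _ => 1)) L (P 920 m y >>> (10 * i)) (P 920 m acc) =
        P 920 m (fun e => trS L i (y e) (acc e)) := by
  intro L
  induction L with
  | nil => intro i _ acc; rfl
  | cons τ L ih =>
    intro i hi acc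
    simp only [List.length_cons] at hi
    rw [trLoop_cons, P_shift_land (by norm_num) hy (by omega)
      (fun _ _ => Nat.one_lt_two_pow (by omega)), P_mul, P_add, ← Nat.shiftRight_add,
      show 10 * i + 10 = 10 * (i + 1) by ring]
    exact ih (i + 1) (by omega) _

end Pool.Agent.Helper36.Sidon
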