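import Mathlib

set_option autoImplicit false

/-!
# Packed lanes

`P z m f` is the natural number whose base `2 ^ z` digits are `f 0, …, f (m - 1)`.
Arithmetic on such packed numbers acts on all lanes at once.
-/

namespace Pool.Agent.Helper36.Sidon

/-- the number with base `2 ^ z` digits (lanes) `f 0, …, f (m - 1)` -/
def P (z m : ℕ) (f : ℕ → ℕ) : ℕ := ∑ e ∈ Finset.range m, f e * (2 ^ z) ^ e

theorem P_zero (z : ℕ) (f : ℕ → ℕ) : P z 0 f = 0 := by simp [P]

theorem P_succ (z m : ℕ) (f : ℕ → ℕ) :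
    P z (m + 1) f = 2 ^ z * P z m (fun e => f (e + 1)) + f 0 := by
  unfold P
  rw [Finset.sum_range_succ', Finset.mul_sum]
  congr 1
  · apply Finset.sum_congr rfl
    intro e _
    rw [pow_succ]; ring
  · simp

theorem P_succ_top (z m : ℕ) (f : ℕ → ℕ) :
    P z (m + 1) f = P z m f + f m * (2 ^ z) ^ m := by
  unfold P
  rw [Finset.sum_range_succ]

theorem P_congr {z m : ℕ} {f g : ℕ → ℕ} (h : ∀ e < m, f e = g e) : P z m f = P z m g := by
  unfold P
  apply Finset.sum_congr rfl
  intro e he
  rw [h e (Finset.mem_range.1 he)]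

theorem P_add (z m : ℕ) (f g : ℕ → ℕ) : P z m f + P z m g = P z m (fun e => f e + g e) := by
  unfold P
  rw [← Finset.sum_add_distrib]
  apply Finset.sum_congr rfl
  intro e _
  ring

theorem P_mul (z m : ℕ) (f : ℕ → ℕ) (t : ℕ) : P z m f * t = P z m (fun e => f e * t) := by
  unfold P
  rw [Finset.sum_mul]
  apply Finset.sum_congr rfl
  intro e _
  ring

theorem P_sub (z m : ℕ) (f g : ℕ → ℕ) (h : ∀ e < m, g e ≤ f e) :
    P z m f - P z m g = P z m (fun e => f e - g e) := by
  have h1 : P z m (fun e => f e - g e) + P z m g = P z m f := by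
    rw [P_add]
    apply P_congr
    intro e he
    exact Nat.sub_add_cancel (h e he)
  omega

theorem P_testBit (z : ℕ) (hz : 0 < z) : ∀ (m : ℕ) (f : ℕ → ℕ), (∀ e < m, f e < 2 ^ z) →
    ∀ j, (P z m f).testBit j = (decide (j / z < m) && (f (j / z)).testBit (j % z)) := by
  intro m
  induction m with
  | zero => intro f _ j; simp [P_zero]
  | succ m ih =>
    intro f hf j
    rw [P_succ, Nat.testBit_two_pow_mul_add _ (hf 0 (Nat.succ_pos m))]
    by_cases hj : j < z
    · have h0 : j / z = 0 := Nat.div_eq_of_lt hj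
      have h1 : j % z = j := Nat.mod_eq_of_lt hj
      rw [h0, h1]
      simp [hj]
    · have hj' : z ≤ j := Nat.le_of_not_lt hj
      rw [if_neg hj, ih (fun e => f (e + 1)) (fun e he => hf (e + 1) (by omega))]
      have h0 : j / z = (j - z) / z + 1 := by
        conv_lhs => rw [show j = (j - z) + z by omega]
        exact Nat.add_div_right _ hz
      have h1 : j % z = (j - z) % z := by
        conv_lhs => rw [show j = (j - z) + z by omega]
        exact Nat.add_mod_right _ _
      rw [h0, h1]
      simp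

theorem P_land {z m : ℕ} (hz : 0 < z) {f g : ℕ → ℕ} (hf : ∀ e < m, f e < 2 ^ z)
    (hg : ∀ e < m, g e < 2 ^ z) : P z m f &&& P z m g = P z m (fun e => f e &&& g e) := by
  have hfg : ∀ e < m, f e &&& g e < 2 ^ z := fun e he => Nat.and_lt_two_pow _ (hg e he)
  apply Nat.eq_of_testBit_eq
  intro j
  rw [Nat.testBit_and, P_testBit z hz m f hf, P_testBit z hz m g hg, P_testBit z hz m _ hfg,
    Nat.testBit_and]
  cases decide (j / z < m) <;> simp

theorem P_shift_land {z m s : ℕ} (hz : 0 < z) {f g : ℕ → ℕ} (hf : ∀ e < m, f e < 2 ^ z)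
    (hs : s ≤ z) (hg : ∀ e < m, g e < 2 ^ (z - s)) :
    (P z m f >>> s) &&& P z m g = P z m (fun e => (f e >>> s) &&& g e) := by
  have hg' : ∀ e < m, g e < 2 ^ z := fun e he =>
    lt_of_lt_of_le (hg e he) (Nat.pow_le_pow_right (by norm_num) (Nat.sub_le _ _))
  have hfg : ∀ e < m, (f e >>> s) &&& g e < 2 ^ z := fun e he => Nat.and_lt_two_pow _ (hg' e he)
  apply Nat.eq_of_testBit_eq
  intro j
  rw [Nat.testBit_and, Nat.testBit_shiftRight, P_testBit z hz m f hf, P_testBit z hz m g hg',
    P_testBit z hz m _ hfg, Nat.testBit_and, Nat.testBit_shiftRight]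
  by_cases hj : j / z < m
  · by_cases hi : j % z < z - s
    · have h2 : s + j = z * (j / z) + (s + j % z) := by
        have h3 := Nat.div_add_mod j z
        omega
      have h4 : s + j % z < z := by omega
      have h0 : (s + j) / z = j / z := by
        rw [h2, Nat.mul_add_div hz, Nat.div_eq_of_lt h4, Nat.add_zero]
      have h1 : (s + j) % z = s + j % z := by
        rw [h2, Nat.mul_add_mod, Nat.mod_eq_of_lt h4]
      rw [h0, h1]
      simp [hj]
    · have h3 : (g (j / z)).testBit (j % z) = false := by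
        apply Nat.testBit_lt_two_pow
        exact lt_of_lt_of_le (hg _ hj) (Nat.pow_le_pow_right (by norm_num) (by omega))
      rw [h3]
      simp
  · simp [hj]

theorem P_inj {z : ℕ} : ∀ {m : ℕ} {f g : ℕ → ℕ}, (∀ e < m, f e < 2 ^ z) →
    (∀ e < m, g e < 2 ^ z) → P z m f = P z m g → ∀ e < m, f e = g e := by
  intro m
  induction m with
  | zero => intro f g _ _ _ e he; omega
  | succ m ih =>
    intro f g hf hg h e he
    rw [P_succ, P_succ] at h
    have h0 : f 0 = g 0 := by
      have h1 := congrArg (fun t => t % 2 ^ z) h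
      simp only [Nat.mul_add_mod] at h1
      rwa [Nat.mod_eq_of_lt (hf 0 (Nat.succ_pos m)), Nat.mod_eq_of_lt (hg 0 (Nat.succ_pos m))] at h1
    have h2 : P z m (fun e => f (e + 1)) = P z m (fun e => g (e + 1)) := by
      rw [h0] at h
      have h3 := Nat.add_right_cancel h
      exact Nat.eq_of_mul_eq_mul_left (Nat.two_pow_pos z) h3
    cases e with
    | zero => exact h0
    | succ e =>
      exact ih (fun e he => hf (e + 1) (Nat.succ_lt_succ he))
        (fun e he => hg (e + 1) (Nat.succ_lt_succ he)) h2 e (Nat.lt_of_succ_lt_succ he)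

theorem P_lt {z : ℕ} : ∀ {m : ℕ} {f : ℕ → ℕ}, (∀ e < m, f e < 2 ^ z) → P z m f < (2 ^ z) ^ m := by
  intro m
  induction m with
  | zero => intro f _; simp [P_zero]
  | succ m ih =>
    intro f hf
    rw [P_succ]
    have h1 := ih (f := fun e => f (e + 1)) (fun e he => hf (e + 1) (by omega))
    have h2 := hf 0 (Nat.succ_pos m)
    rw [pow_succ]
    calc 2 ^ z * P z m (fun e => f (e + 1)) + f 0 < 2 ^ z * P z m (fun e => f (e + 1)) + 2 ^ z := by
          omega
      _ = 2 ^ z * (P z m (fun e => f (e + 1)) + 1) := by ring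
      _ ≤ 2 ^ z * (2 ^ z) ^ m := Nat.mul_le_mul_left _ h1
      _ = (2 ^ z) ^ m * 2 ^ z := by ring

end Pool.Agent.Helper36.Sidon
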