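import Pool.Agent.Helper36.Sidon.Lane

set_option autoImplicit false

/-!
# Kronecker representation of elements of `𝔽₂[x]`

`Rep x w d c n y` : the natural number `n = ∑_{i<d} a i * (2^w)^i`, with coefficients `a i ≤ c`,
represents `y = ∑_{i<d} a i * x^i` in a ring of characteristic two.
-/

namespace Pool.Agent.Helper36.Sidon

open Polynomial

variable {K : Type*} [Field K]

/-- `n` is the value at `2 ^ w`, `y` the value at `x`, of the same polynomial of degree `< d` with
natural coefficients `≤ c` -/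
def Rep (x : K) (w d c n : ℕ) (y : K) : Prop :=
  ∃ a : ℕ → ℕ, (∀ i, a i ≤ c) ∧ n = ∑ i ∈ Finset.range d, a i * (2 ^ w) ^ i ∧
    y = ∑ i ∈ Finset.range d, (a i : K) * x ^ i

theorem Rep.mono {x : K} {w d c n : ℕ} {y : K} (h : Rep x w d c n y) {d' c' : ℕ} (hd : d ≤ d')
    (hc : c ≤ c') : Rep x w d' c' n y := by
  obtain ⟨a, ha, hn, hy⟩ := h
  refine ⟨fun i => if i < d then a i else 0, ?_, ?_, ?_⟩
  · intro i
    dsimp only
    split_ifs
    · exact (ha i).trans hc
    · exact Nat.zero_le _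
  · rw [hn]
    obtain ⟨e, rfl⟩ := Nat.exists_eq_add_of_le hd
    rw [Finset.sum_range_add]
    have h1 : ∑ i ∈ Finset.range e, (if d + i < d then a (d + i) else 0) * (2 ^ w) ^ (d + i) = 0 := by
      apply Finset.sum_eq_zero
      intro i _
      rw [if_neg (by omega), zero_mul]
    rw [h1, add_zero]
    apply Finset.sum_congr rfl
    intro i hi
    simp only [if_pos (Finset.mem_range.1 hi)]
  · rw [hy]
    obtain ⟨e, rfl⟩ := Nat.exists_eq_add_of_le hd
    rw [Finset.sum_range_add]
    have h1 : ∑ i ∈ Finset.range e, (((if d + i < d then a (d + i) else 0 : ℕ) : K)) * x ^ (d + i)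
        = 0 := by
      apply Finset.sum_eq_zero
      intro i _
      rw [if_neg (by omega), Nat.cast_zero, zero_mul]
    rw [h1, add_zero]
    apply Finset.sum_congr rfl
    intro i hi
    simp only [if_pos (Finset.mem_range.1 hi)]

theorem Rep.add {x : K} {w d c n c' n' : ℕ} {y y' : K} (h : Rep x w d c n y)
    (h' : Rep x w d c' n' y') : Rep x w d (c + c') (n + n') (y + y') := by
  obtain ⟨a, ha, hn, hy⟩ := h
  obtain ⟨b, hb, hn', hy'⟩ := h'
  refine ⟨fun i => a i + b i, fun i => Nat.add_le_add (ha i) (hb i), ?_, ?_⟩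
  · rw [hn, hn', ← Finset.sum_add_distrib]
    apply Finset.sum_congr rfl
    intro i _
    ring
  · rw [hy, hy', ← Finset.sum_add_distrib]
    apply Finset.sum_congr rfl
    intro i _
    push_cast
    ring

theorem Rep.zero (x : K) (w d c : ℕ) : Rep x w d c 0 0 :=
  ⟨fun _ => 0, fun _ => Nat.zero_le _, by simp, by simp⟩

theorem eval₂_range {S : Type*} [CommSemiring S] (p : ℕ[X]) (D : ℕ)
    (h : ∀ k, D ≤ k → p.coeff k = 0) (φ : ℕ →+* S) (z : S) :
    p.eval₂ φ z = ∑ i ∈ Finset.range D, φ (p.coeff i) * z ^ i := by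
  by_cases h0 : p = 0
  · rw [h0]; simp
  · have hlt : p.natDegree < D := by
      by_contra hcon
      have h1 := h _ (Nat.le_of_not_lt hcon)
      exact h0 (Polynomial.leadingCoeff_eq_zero.1 h1)
    exact Polynomial.eval₂_eq_sum_range' φ hlt z

theorem Rep.mul {x : K} {w d c n d' c' n' : ℕ} {y y' : K} (h : Rep x w d c n y)
    (h' : Rep x w d' c' n' y') {D C : ℕ} (hD : d + d' ≤ D + 1) (hC : d * (c * c') ≤ C) :
    Rep x w D C (n * n') (y * y') := by
  obtain ⟨a, ha, hn, hy⟩ := h
  obtain ⟨b, hb, hn', hy'⟩ := h'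
  let f : ℕ[X] := ∑ i ∈ Finset.range d, Polynomial.C (a i) * X ^ i
  let g : ℕ[X] := ∑ i ∈ Finset.range d', Polynomial.C (b i) * X ^ i
  have hfc : ∀ i, f.coeff i = if i < d then a i else 0 := by
    intro i
    simp only [f, Polynomial.finsetSum_coeff, Polynomial.coeff_C_mul, Polynomial.coeff_X_pow,
      mul_ite, mul_one, mul_zero, Finset.sum_ite_eq, Finset.mem_range]
  have hgc : ∀ i, g.coeff i = if i < d' then b i else 0 := by
    intro i
    simp only [g, Polynomial.finsetSum_coeff, Polynomial.coeff_C_mul, Polynomial.coeff_X_pow,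
      mul_ite, mul_one, mul_zero, Finset.sum_ite_eq, Finset.mem_range]
  have hcoef : ∀ k, (f * g).coeff k ≤ C := by
    intro k
    rw [Polynomial.coeff_mul, Finset.Nat.sum_antidiagonal_eq_sum_range_succ_mk]
    calc ∑ i ∈ Finset.range k.succ, f.coeff i * g.coeff (k - i)
        ≤ ∑ i ∈ Finset.range k.succ, (if i < d then c * c' else 0) := by
          apply Finset.sum_le_sum
          intro i _
          rw [hfc, hgc]
          split_ifs
          · exact Nat.mul_le_mul (ha i) (hb _)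
          · simp
          · simp
          · simp
      _ = ((Finset.range k.succ).filter (fun i => i < d)).card * (c * c') := by
          rw [← Finset.sum_filter, Finset.sum_const, smul_eq_mul]
      _ ≤ d * (c * c') := by
          apply Nat.mul_le_mul_right
          calc ((Finset.range k.succ).filter (fun i => i < d)).card ≤ (Finset.range d).card := by
                apply Finset.card_le_card
                intro i hi
                exact Finset.mem_range.2 (Finset.mem_filter.1 hi).2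
            _ = d := Finset.card_range d
      _ ≤ C := hC
  have hdeg : ∀ k, D ≤ k → (f * g).coeff k = 0 := by
    intro k hk
    rw [Polynomial.coeff_mul, Finset.Nat.sum_antidiagonal_eq_sum_range_succ_mk]
    apply Finset.sum_eq_zero
    intro i hi
    rw [hfc, hgc]
    have := Finset.mem_range.1 hi
    split_ifs
    · exfalso; omega
    · simp
    · simp
    · simp
  have hf1 : f.eval₂ (RingHom.id ℕ) (2 ^ w) = n := by
    rw [hn]; simp [f, Polynomial.eval₂_finsetSum]
  have hg1 : g.eval₂ (RingHom.id ℕ) (2 ^ w) = n' := by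
    rw [hn']; simp [g, Polynomial.eval₂_finsetSum]
  have hf2 : f.eval₂ (Nat.castRingHom K) x = y := by
    rw [hy]; simp [f, Polynomial.eval₂_finsetSum]
  have hg2 : g.eval₂ (Nat.castRingHom K) x = y' := by
    rw [hy']; simp [g, Polynomial.eval₂_finsetSum]
  refine ⟨fun i => (f * g).coeff i, hcoef, ?_, ?_⟩
  · rw [← hf1, ← hg1, ← Polynomial.eval₂_mul, eval₂_range _ D hdeg]
    simp
  · rw [← hf2, ← hg2, ← Polynomial.eval₂_mul, eval₂_range _ D hdeg]
    simp

/-- the digits of a packed number -/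
theorem sum_mod {B : ℕ} (hB : 0 < B) {d : ℕ} {a : ℕ → ℕ} (ha : ∀ i, a i < B) (N e : ℕ) (hd : d = N + e) :
    (∑ i ∈ Finset.range d, a i * B ^ i) % B ^ N = ∑ i ∈ Finset.range N, a i * B ^ i ∧
    (∑ i ∈ Finset.range d, a i * B ^ i) / B ^ N = ∑ i ∈ Finset.range e, a (N + i) * B ^ i := by
  subst hd
  have hlt : ∀ N, ∑ i ∈ Finset.range N, a i * B ^ i < B ^ N := by
    intro N
    induction N with
    | zero => simp
    | succ N ih =>
      rw [Finset.sum_range_succ, pow_succ]
      calc ∑ i ∈ Finset.range N, a i * B ^ i + a N * B ^ N < B ^ N + a N * B ^ N := by omega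
        _ = (a N + 1) * B ^ N := by ring
        _ ≤ B * B ^ N := Nat.mul_le_mul_right _ (ha N)
        _ = B ^ N * B := by ring
  have h1 : ∑ i ∈ Finset.range (N + e), a i * B ^ i =
      B ^ N * (∑ i ∈ Finset.range e, a (N + i) * B ^ i) + ∑ i ∈ Finset.range N, a i * B ^ i := by
    rw [Finset.sum_range_add, add_comm, Finset.mul_sum]
    congr 1
    apply Finset.sum_congr rfl
    intro i _
    rw [pow_add]; ring
  rw [h1]
  refine ⟨?_, ?_⟩
  · rw [Nat.mul_add_mod, Nat.mod_eq_of_lt (hlt N)]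
  · rw [Nat.mul_add_div (Nat.pow_pos hB), Nat.div_eq_of_lt (hlt N), Nat.add_zero]

theorem Rep.split {x : K} {w d c n N e : ℕ} {y : K} (h : Rep x w d c n y) (hc : c < 2 ^ w)
    (hd : d = N + e) : ∃ y0 y1, Rep x w N c (n % (2 ^ w) ^ N) y0 ∧
      Rep x w e c (n / (2 ^ w) ^ N) y1 ∧ y = y0 + x ^ N * y1 := by
  obtain ⟨a, ha, hn, hy⟩ := h
  obtain ⟨h1, h2⟩ := sum_mod (Nat.two_pow_pos w) (fun i => lt_of_le_of_lt (ha i) hc) N e hd
  refine ⟨∑ i ∈ Finset.range N, (a i : K) * x ^ i, ∑ i ∈ Finset.range e, (a (N + i) : K) * x ^ i,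
    ⟨a, ha, ?_, rfl⟩, ⟨fun i => a (N + i), fun i => ha _, ?_, rfl⟩, ?_⟩
  · rw [hn, h1]
  · rw [hn, h2]
  · rw [hy, hd, Finset.sum_range_add, Finset.mul_sum]
    congr 1
    apply Finset.sum_congr rfl
    intro i _
    rw [pow_add]; ring

/-- the parity mask -/
def mk (w d : ℕ) : ℕ := ∑ i ∈ Finset.range d, (2 ^ w) ^ i

theorem mask_sum {w : ℕ} (hw : 0 < w) (d : ℕ) (a : ℕ → ℕ) (ha : ∀ i, a i < 2 ^ w) :
    (∑ i ∈ Finset.range d, a i * (2 ^ w) ^ i) &&& mk w d =
      ∑ i ∈ Finset.range d, (a i % 2) * (2 ^ w) ^ i := by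
  have h1 := P_land (z := w) (m := d) hw (f := a) (g := fun _ => 1) (fun e _ => ha e)
    (fun _ _ => Nat.one_lt_two_pow (Nat.pos_iff_ne_zero.1 hw))
  unfold P at h1
  simp only [one_mul, Nat.and_one_is_mod] at h1
  exact h1

theorem cast_mod_two [CharP K 2] (a : ℕ) : ((a % 2 : ℕ) : K) = (a : K) := by
  conv_rhs => rw [← Nat.div_add_mod a 2]
  push_cast
  have : (2 : K) = 0 := by exact_mod_cast CharP.cast_eq_zero K 2
  rw [this]; ring

theorem Rep.mask [CharP K 2] {x : K} {w d c n : ℕ} {y : K} (hw : 0 < w) (h : Rep x w d c n y)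
    (hc : c < 2 ^ w) : Rep x w d 1 (n &&& mk w d) y := by
  obtain ⟨a, ha, hn, hy⟩ := h
  refine ⟨fun i => a i % 2, fun i => by dsimp only; omega, ?_, ?_⟩
  · rw [hn, mask_sum hw d a (fun i => lt_of_le_of_lt (ha i) hc)]
  · rw [hy]
    apply Finset.sum_congr rfl
    intro i _
    rw [cast_mod_two]

theorem Rep.lt {x : K} {w d c n : ℕ} {y : K} (h : Rep x w d c n y) (hc : c < 2 ^ w) :
    n < (2 ^ w) ^ d := by
  obtain ⟨a, ha, hn, _⟩ := h
  rw [hn]
  exact P_lt (z := w) (m := d) (f := a) (fun e _ => lt_of_le_of_lt (ha e) hc)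

/-- the represented element is determined by the number -/
theorem Rep.unique {x : K} {w d c n c' : ℕ} {y y' : K} (h : Rep x w d c n y) (hc : c < 2 ^ w)
    (h' : Rep x w d c' n y') (hc' : c' < 2 ^ w) : y = y' := by
  obtain ⟨a, ha, hn, hy⟩ := h
  obtain ⟨b, hb, hn', hy'⟩ := h'
  rw [hn] at hn'
  have h1 := P_inj (z := w) (m := d) (f := a) (g := b) (fun e _ => lt_of_le_of_lt (ha e) hc)
    (fun e _ => lt_of_le_of_lt (hb e) hc') hn'
  rw [hy, hy']
  apply Finset.sum_congr rfl
  intro i hi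
  rw [h1 i (Finset.mem_range.1 hi)]

theorem Rep.one (x : K) (w d : ℕ) (hd : 0 < d) : Rep x w d 1 1 1 := by
  refine ⟨fun i => if i = 0 then 1 else 0, fun i => by dsimp only; split_ifs <;> simp, ?_, ?_⟩
  · rw [Finset.sum_eq_single 0]
    · simp
    · intro b _ hb; simp [hb]
    · intro h; exact absurd (Finset.mem_range.2 hd) h
  · rw [Finset.sum_eq_single 0]
    · simp
    · intro b _ hb; simp [hb]
    · intro h; exact absurd (Finset.mem_range.2 hd) h

end Pool.Agent.Helper36.Sidon
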