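import Pool.Agent.Helper36.Sidon.Batch

set_option autoImplicit false
set_option exponentiation.threshold 2000

/-!
# From exponents to a Sidon set
-/

namespace Pool.Agent.Helper36.Sidon

/-- the modulus `2 ^ 46 - 1` -/
abbrev V : ℕ := 70368744177663

theorem rot_iter {x : ℕ} (hx : x < V) : ∀ k, rot^[k] x = (2 ^ k * x) % V := by
  intro k
  induction k with
  | zero => simp [Nat.mod_eq_of_lt hx]
  | succ k ih =>
    rw [Function.iterate_succ_apply', ih, rot_eq (Nat.mod_lt _ (by norm_num)), Nat.mul_mod_mod,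
      ← mul_assoc, ← pow_succ']

theorem rot_iter_lt {x : ℕ} (hx : x < V) (k : ℕ) : rot^[k] x < V := by
  rw [rot_iter hx]; exact Nat.mod_lt _ (by norm_num)

theorem rot_full {x : ℕ} (hx : x < V) : rot^[46] x = x := by
  rw [rot_iter hx]
  have h : (2:ℕ) ^ 46 * x = V * x + x := by norm_num; ring
  rw [h, Nat.mul_add_mod, Nat.mod_eq_of_lt hx]

/-- `d` is strictly smaller than its other rotations -/
def StrictMin (d : ℕ) : Prop := ∀ k < 45, d < rot^[k + 1] d

theorem rot_inj_aux {d d' : ℕ} (hd : d < V) (hd' : d' < V) (hm : StrictMin d) (hm' : StrictMin d')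
    {l l' : ℕ} (hll : l ≤ l') (hl' : l' < 46) (h : rot^[l] d = rot^[l'] d') : d = d' ∧ l = l' := by
  have h1 : d = rot^[l' - l] d' := by
    have h2 : rot^[46 - l] (rot^[l] d) = rot^[46 - l] (rot^[l'] d') := by rw [h]
    rw [← Function.iterate_add_apply, ← Function.iterate_add_apply,
      show 46 - l + l = 46 by omega, rot_full hd,
      show 46 - l + l' = (l' - l) + 46 by omega, Function.iterate_add_apply, rot_full hd'] at h2
    exact h2
  rcases Nat.eq_or_lt_of_le hll with h2 | h2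
  · subst h2
    rw [Nat.sub_self] at h1
    exact ⟨h1, rfl⟩
  · exfalso
    obtain ⟨k, hk⟩ := Nat.exists_eq_add_of_lt h2
    have hk1 : l' - l = k + 1 := by omega
    rw [hk1] at h1
    have h3 : d' < d := by
      have := hm' k (by omega)
      omega
    have h4 : rot^[46 - (k + 1)] d = d' := by
      rw [h1, ← Function.iterate_add_apply, show 46 - (k + 1) + (k + 1) = 46 by omega,
        rot_full hd']
    have h5 : d < d' := by
      have := hm (44 - k) (by omega)
      rw [show 44 - k + 1 = 46 - (k + 1) by omega, h4] at this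
      exact this
    omega

theorem rot_inj {d d' : ℕ} (hd : d < V) (hd' : d' < V) (hm : StrictMin d) (hm' : StrictMin d')
    {l l' : ℕ} (hl : l < 46) (hl' : l' < 46) (h : rot^[l] d = rot^[l'] d') : d = d' ∧ l = l' := by
  rcases Nat.le_total l l' with h1 | h1
  · exact rot_inj_aux hd hd' hm hm' h1 hl' h
  · have := rot_inj_aux hd' hd hm' hm h1 hl h.symm
    exact ⟨this.1.symm, this.2.symm⟩

variable {K : Type*} [Field K] [CharP K 2]

/-- the exponent has trace one -/
def TrOne (ψ : K) (i : ℕ) : Prop := (ψ ^ i) ^ (2 ^ 23) = ψ ^ i + 1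

theorem trOne_rot {ψ : K} (hψ : orderOf ψ = V) {i : ℕ} (hi : i < V) (h : TrOne ψ i) :
    TrOne ψ (rot i) := by
  unfold TrOne at *
  rw [rot_eq hi]
  have h1 : ψ ^ (2 * i % 70368744177663) = (ψ ^ i) ^ 2 := by
    have h2 := pow_mod_orderOf ψ (2 * i)
    rw [hψ] at h2
    rw [h2, mul_comm, pow_mul]
  rw [h1, ← pow_mul, mul_comm 2, pow_mul, h]
  have : (2 : K) = 0 := two_eq_zero
  linear_combination (ψ ^ i) * this

theorem trOne_rot_iter {ψ : K} (hψ : orderOf ψ = V) {i : ℕ} (hi : i < V) (h : TrOne ψ i) (k : ℕ) :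
    TrOne ψ (rot^[k] i) := by
  induction k with
  | zero => exact h
  | succ k ih =>
    rw [Function.iterate_succ_apply']
    exact trOne_rot hψ (rot_iter_lt hi k) ih

theorem pow_inj_V {ψ : K} (hψ : orderOf ψ = V) {i j : ℕ} (hi : i < V) (hj : j < V)
    (h : ψ ^ i = ψ ^ j) : i = j := by
  exact pow_injOn_Iio_orderOf (x := ψ) (by rw [Set.mem_Iio, hψ]; exact hi)
    (by rw [Set.mem_Iio, hψ]; exact hj) h

/-- exponents of trace one form a Sidon set -/
theorem sidon_of_trOne {ψ : K} (hψ : orderOf ψ = V) {a b c d : ℕ} (ha : a < V) (hb : b < V)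
    (hc : c < V) (hd : d < V) (ta : TrOne ψ a) (tb : TrOne ψ b) (tc : TrOne ψ c) (td : TrOne ψ d)
    (h : a + b = c + d) : (a = c ∧ b = d) ∨ (a = d ∧ b = c) := by
  unfold TrOne at *
  have h1 : ψ ^ a * ψ ^ b = ψ ^ c * ψ ^ d := by rw [← pow_add, ← pow_add, h]
  have h2 : (ψ ^ a + 1) * (ψ ^ b + 1) = (ψ ^ c + 1) * (ψ ^ d + 1) := by
    rw [← ta, ← tb, ← tc, ← td, ← mul_pow, ← mul_pow, h1]
  have h3 : ψ ^ a + ψ ^ b = ψ ^ c + ψ ^ d := by linear_combination h2 - h1
  have h4 : (ψ ^ a - ψ ^ c) * (ψ ^ a - ψ ^ d) = 0 := by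
    linear_combination (ψ ^ a) * h3 - h1
  rcases mul_eq_zero.1 h4 with h5 | h5
  · left
    have e1 : ψ ^ a = ψ ^ c := sub_eq_zero.1 h5
    have e2 : ψ ^ b = ψ ^ d := by linear_combination h3 - e1
    exact ⟨pow_inj_V hψ ha hc e1, pow_inj_V hψ hb hd e2⟩
  · right
    have e1 : ψ ^ a = ψ ^ d := sub_eq_zero.1 h5
    have e2 : ψ ^ b = ψ ^ c := by linear_combination h3 - e1
    exact ⟨pow_inj_V hψ ha hd e1, pow_inj_V hψ hb hc e2⟩

theorem trOne_third {ψ : K} (hψ : orderOf ψ = V) :
    TrOne ψ 23456248059221 ∧ TrOne ψ 46912496118442 := by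
  have h0 : ψ ≠ 0 := by
    intro h
    rw [h, orderOf_zero] at hψ
    exact absurd hψ (by norm_num)
  set ω := ψ ^ 23456248059221 with hω
  have h3 : ω ^ 3 = 1 := by
    rw [hω, ← pow_mul, show 23456248059221 * 3 = V by norm_num, ← hψ, pow_orderOf_eq_one]
  have h1 : ω ≠ 1 := by
    intro h
    have := pow_inj_V hψ (i := 23456248059221) (j := 0) (by norm_num) (by norm_num)
      (by rw [pow_zero]; exact h)
    norm_num at this
  have h4 : ω ^ 2 + ω + 1 = 0 := by
    have h5 : (ω - 1) * (ω ^ 2 + ω + 1) = 0 := by linear_combination h3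
    rcases mul_eq_zero.1 h5 with h6 | h6
    · exact absurd (sub_eq_zero.1 h6) h1
    · exact h6
  have h2 : (2 : K) = 0 := two_eq_zero
  have hq : ∀ n : ℕ, ω ^ (3 * n + 2) = ω ^ 2 := by
    intro n
    rw [pow_add, pow_mul, h3, one_pow, one_mul]
  have hq1 : ∀ n : ℕ, ω ^ (3 * n + 1) = ω := by
    intro n
    rw [pow_add, pow_mul, h3, one_pow, one_mul, pow_one]
  constructor
  · unfold TrOne
    rw [← hω]
    have h6 : ω ^ (2 ^ 23) = ω ^ 2 := by
      rw [show (2:ℕ) ^ 23 = 3 * 2796202 + 2 by norm_num]; exact hq _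
    rw [h6]
    linear_combination h4 - (ω + 1) * h2
  · unfold TrOne
    have h7 : ψ ^ 46912496118442 = ω ^ 2 := by
      rw [hω, ← pow_mul]
    have h6 : (ω ^ 2) ^ (2 ^ 23) = ω := by
      rw [← pow_mul, show 2 * (2:ℕ) ^ 23 = 3 * 5592405 + 1 by norm_num]; exact hq1 _
    rw [h7, h6]
    linear_combination h4 - (ω ^ 2 + 1) * h2

/-- the window condition for a rotation -/
def InW (lo top : ℕ) (p : ℕ × ℕ) : Prop := lo ≤ rot^[p.2] p.1 ∧ rot^[p.2] p.1 ≤ top

instance (lo top : ℕ) (p : ℕ × ℕ) : Decidable (InW lo top p) := by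
  unfold InW; infer_instance

/-- the number of rotations of the members of a list which lie in the window -/
def cnt (lo top : ℕ) (L : List ℕ) : ℕ :=
  (L.map (fun d => ((Finset.range 46).filter (fun l => InW lo top (d, l))).card)).sum

theorem card_filter_cnt {lo top : ℕ} {E : List ℕ} (hE : E.Nodup) :
    ((E.toFinset ×ˢ Finset.range 46).filter (InW lo top)).card = cnt lo top E := by
  have h1 : ((E.toFinset ×ˢ Finset.range 46).filter (InW lo top)).card =
      ∑ d ∈ E.toFinset, ((Finset.range 46).filter (fun l => InW lo top (d, l))).card := by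
    rw [Finset.card_filter, Finset.sum_product]
    apply Finset.sum_congr (Eq.refl _)
    intro d _
    rw [Finset.card_filter]
  rw [h1, cnt]
  exact List.sum_toFinset (fun d => ((Finset.range 46).filter (fun l => InW lo top (d, l))).card) hE

theorem third_fix : rot^[2] 23456248059221 = 23456248059221 ∧
    rot^[2] 46912496118442 = 46912496118442 := by
  constructor
  · rw [rot_iter (by norm_num)]; norm_num
  · rw [rot_iter (by norm_num)]; norm_num

theorem main_count {ψ : K} (hψ : orderOf ψ = V) {lo top n1 N2 : ℕ}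
    (h1 : Has ψ top lo V n1) {E : List ℕ} (hE : E.Nodup) (hEg : ∀ d ∈ E, Good ψ (V - 1) d)
    (hEx : ∀ d ∈ E, d < lo ∨ ∃ k < 45, top < rot^[k + 1] d) (hcnt : cnt lo top E = N2)
    (hlo3 : lo ≤ 23456248059221) (htop3 : 46912496118442 ≤ top)
    [DecidablePred (TrOne ψ)] :
    46 * n1 + N2 + 2 ≤ ((Finset.Icc lo top).filter (TrOne ψ)).card := by
  obtain ⟨S, hS, hcard, hg⟩ := h1
  let f : ℕ × ℕ → ℕ := fun p => rot^[p.2] p.1
  have hSE : Disjoint S E.toFinset := by
    rw [Finset.disjoint_left]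
    intro d hd hd'
    rcases hEx d (List.mem_toFinset.1 hd') with h2 | ⟨k, hk, h2⟩
    · have := Finset.mem_Ico.1 (hS hd); omega
    · have := ((hg d hd).2.2 k hk).2; omega
  have hU : ∀ d ∈ S ∪ E.toFinset, d < V ∧ TrOne ψ d ∧ StrictMin d := by
    intro d hd
    rcases Finset.mem_union.1 hd with h2 | h2
    · have := hg d h2
      exact ⟨this.1, this.2.1, fun k hk => (this.2.2 k hk).1⟩
    · have := hEg d (List.mem_toFinset.1 h2)
      exact ⟨this.1, this.2.1, fun k hk => (this.2.2 k hk).1⟩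
  have hinj : Set.InjOn f (((S ∪ E.toFinset) ×ˢ Finset.range 46).filter (InW lo top) :
      Finset (ℕ × ℕ)) := by
    intro p hp p' hp' hpp
    have hp1 := (Finset.mem_filter.1 (Finset.mem_coe.1 hp)).1
    have hp2 := (Finset.mem_filter.1 (Finset.mem_coe.1 hp')).1
    rw [Finset.mem_product, Finset.mem_range] at hp1 hp2
    have g1 := hU _ hp1.1
    have g2 := hU _ hp2.1
    have := rot_inj g1.1 g2.1 g1.2.2 g2.2.2 hp1.2 hp2.2 hpp
    exact Prod.ext this.1 this.2
  have hSfull : (S ×ˢ Finset.range 46).filter (InW lo top) = S ×ˢ Finset.range 46 := by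
    apply Finset.filter_true_of_mem
    intro p hp
    rw [Finset.mem_product, Finset.mem_range] at hp
    have g1 := hg _ hp.1
    have g2 := Finset.mem_Ico.1 (hS hp.1)
    unfold InW
    rcases Nat.eq_zero_or_pos p.2 with h2 | h2
    · rw [h2]
      simp only [Function.iterate_zero, id]
      have := g1.2.2 0 (by norm_num)
      omega
    · have := g1.2.2 (p.2 - 1) (by omega)
      rw [show p.2 - 1 + 1 = p.2 by omega] at this
      omega
  have hc1 : (((S ∪ E.toFinset) ×ˢ Finset.range 46).filter (InW lo top)).card =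
      46 * n1 + N2 := by
    rw [Finset.union_product, Finset.filter_union, Finset.card_union_of_disjoint, hSfull,
      Finset.card_product, hcard, Finset.card_range, card_filter_cnt hE, hcnt, mul_comm]
    apply Finset.disjoint_filter_filter
    rw [Finset.disjoint_left]
    intro p hp hp'
    rw [Finset.mem_product] at hp hp'
    exact Finset.disjoint_left.1 hSE hp.1 hp'.1
  set W := (((S ∪ E.toFinset) ×ˢ Finset.range 46).filter (InW lo top)).image f with hW
  have hWc : W.card = 46 * n1 + N2 := by rw [hW, Finset.card_image_of_injOn hinj, hc1]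
  have hWsub : W ⊆ (Finset.Icc lo top).filter (TrOne ψ) := by
    intro i hi
    obtain ⟨p, hp, rfl⟩ := Finset.mem_image.1 hi
    rw [Finset.mem_filter, Finset.mem_product] at hp
    have g1 := hU _ hp.1.1
    exact Finset.mem_filter.2 ⟨Finset.mem_Icc.2 hp.2, trOne_rot_iter hψ g1.1 g1.2.1 _⟩
  have hWper : ∀ i ∈ W, rot^[2] i ≠ i := by
    intro i hi h2
    obtain ⟨p, hp, rfl⟩ := Finset.mem_image.1 hi
    rw [Finset.mem_filter, Finset.mem_product, Finset.mem_range] at hp
    have g1 := hU _ hp.1.1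
    have h3 : rot^[2 + p.2] p.1 = rot^[p.2] p.1 := by
      rw [Function.iterate_add_apply]; exact h2
    rcases Nat.lt_or_ge (2 + p.2) 46 with h4 | h4
    · have := rot_inj g1.1 g1.1 g1.2.2 g1.2.2 h4 hp.1.2 h3
      omega
    · have h5 : rot^[2 + p.2 - 46] p.1 = rot^[p.2] p.1 := by
        rw [← h3]
        conv_rhs => rw [show 2 + p.2 = (2 + p.2 - 46) + 46 by omega, Function.iterate_add_apply,
          rot_full g1.1]
      have := rot_inj g1.1 g1.1 g1.2.2 g1.2.2 (by omega) hp.1.2 h5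
      omega
  have h3a : (23456248059221 : ℕ) ∉ W := fun h => hWper _ h third_fix.1
  have h3b : (46912496118442 : ℕ) ∉ W := fun h => hWper _ h third_fix.2
  obtain ⟨t1, t2⟩ := trOne_third hψ
  have hsub : insert 23456248059221 (insert 46912496118442 W) ⊆
      (Finset.Icc lo top).filter (TrOne ψ) := by
    intro i hi
    rcases Finset.mem_insert.1 hi with h2 | h2
    · subst h2
      exact Finset.mem_filter.2 ⟨Finset.mem_Icc.2 ⟨hlo3, by omega⟩, t1⟩
    · rcases Finset.mem_insert.1 h2 with h2 | h2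
      · subst h2
        exact Finset.mem_filter.2 ⟨Finset.mem_Icc.2 ⟨by omega, htop3⟩, t2⟩
      · exact hWsub h2
  calc 46 * n1 + N2 + 2 = (insert 23456248059221 (insert 46912496118442 W)).card := by
        rw [Finset.card_insert_of_notMem, Finset.card_insert_of_notMem h3b, hWc]
        intro h
        rcases Finset.mem_insert.1 h with h2 | h2
        · norm_num at h2
        · exact h3a h2
    _ ≤ _ := Finset.card_le_card hsub

/-- the final Sidon set -/
theorem exists_sidon {ψ : K} (hψ : orderOf ψ = V) {lo top M : ℕ} (hlo : 0 < lo) (htop : top < V)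
    (hlt : lo ≤ top)
    (hM : ∀ [DecidablePred (TrOne ψ)], M ≤ ((Finset.Icc lo top).filter (TrOne ψ)).card) :
    ∃ A : Finset ℕ, A ⊆ Finset.Icc 1 (top - lo + 1) ∧
      (∀ a ∈ A, ∀ b ∈ A, ∀ c ∈ A, ∀ d ∈ A,
        a + b = c + d → (a = c ∧ b = d) ∨ (a = d ∧ b = c)) ∧ M ≤ A.card := by
  classical
  refine ⟨((Finset.Icc lo top).filter (TrOne ψ)).image (fun i => i - (lo - 1)), ?_, ?_, ?_⟩
  · intro i hi
    obtain ⟨j, hj, rfl⟩ := Finset.mem_image.1 hi
    have := Finset.mem_Icc.1 (Finset.mem_filter.1 hj).1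
    rw [Finset.mem_Icc]
    omega
  · intro a ha b hb c hc d hd h
    obtain ⟨a', ha', rfl⟩ := Finset.mem_image.1 ha
    obtain ⟨b', hb', rfl⟩ := Finset.mem_image.1 hb
    obtain ⟨c', hc', rfl⟩ := Finset.mem_image.1 hc
    obtain ⟨d', hd', rfl⟩ := Finset.mem_image.1 hd
    rw [Finset.mem_filter, Finset.mem_Icc] at ha' hb' hc' hd'
    have h2 : a' + b' = c' + d' := by omega
    rcases sidon_of_trOne hψ (by omega) (by omega) (by omega) (by omega) ha'.2 hb'.2 hc'.2 hd'.2 h2
      with h3 | h3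
    · left; rw [h3.1, h3.2]; exact ⟨rfl, rfl⟩
    · right; rw [h3.1, h3.2]; exact ⟨rfl, rfl⟩
  · rw [Finset.card_image_of_injOn]
    · exact hM
    · intro i hi j hj hij
      have h1 := Finset.mem_Icc.1 (Finset.mem_filter.1 (Finset.mem_coe.1 hi)).1
      have h2 := Finset.mem_Icc.1 (Finset.mem_filter.1 (Finset.mem_coe.1 hj)).1
      simp only at hij
      omega

end Pool.Agent.Helper36.Sidon
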