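import Pool.Agent.Helper36.Sidon.Kern

set_option autoImplicit false
set_option exponentiation.threshold 2000

/-!
# What the verification program checks, lane by lane
-/

namespace Pool.Agent.Helper36.Sidon

theorem pow46 : (2:ℕ) ^ 46 = 70368744177664 := by norm_num

theorem rot_lt {x : ℕ} (hx : x < 70368744177663) : rot x < 70368744177663 := by
  unfold rot
  have h1 : (x * 2) &&& 70368744177663 = (x * 2) % 2 ^ 46 := by
    have := Nat.and_two_pow_sub_one_eq_mod (x * 2) 46
    rwa [pow46] at this
  have h2 : (x >>> 45) &&& 1 = x / 2 ^ 45 := by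
    rw [Nat.and_one_is_mod, Nat.shiftRight_eq_div_pow]
    have : x / 2 ^ 45 < 2 := by
      rw [Nat.div_lt_iff_lt_mul (by norm_num)]; norm_num; omega
    omega
  rw [h1, h2]
  have h3 : (2:ℕ) ^ 46 = 70368744177664 := by norm_num
  have h4 : (2:ℕ) ^ 45 = 35184372088832 := by norm_num
  rw [h3, h4]
  omega

/-- `rot` is doubling modulo `2 ^ 46 - 1` -/
theorem rot_eq {x : ℕ} (hx : x < 70368744177663) : rot x = (2 * x) % 70368744177663 := by
  unfold rot
  have h1 : (x * 2) &&& 70368744177663 = (x * 2) % 2 ^ 46 := by
    have := Nat.and_two_pow_sub_one_eq_mod (x * 2) 46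
    rwa [pow46] at this
  have h2 : (x >>> 45) &&& 1 = x / 2 ^ 45 := by
    rw [Nat.and_one_is_mod, Nat.shiftRight_eq_div_pow]
    have : x / 2 ^ 45 < 2 := by
      rw [Nat.div_lt_iff_lt_mul (by norm_num)]; norm_num; omega
    omega
  rw [h1, h2]
  have h3 : (2:ℕ) ^ 46 = 70368744177664 := by norm_num
  have h4 : (2:ℕ) ^ 45 = 35184372088832 := by norm_num
  rw [h3, h4]
  rcases Nat.lt_or_ge x 35184372088832 with h5 | h5
  · have e1 : x / 35184372088832 = 0 := Nat.div_eq_of_lt h5
    have e2 : x * 2 % 70368744177664 = x * 2 := Nat.mod_eq_of_lt (by omega)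
    have e3 : 2 * x % 70368744177663 = 2 * x := Nat.mod_eq_of_lt (by omega)
    rw [e1, e2, e3]; omega
  · have e1 : x / 35184372088832 = 1 := by omega
    have e2 : x * 2 % 70368744177664 = x * 2 - 70368744177664 := by omega
    have e3 : 2 * x % 70368744177663 = 2 * x - 70368744177663 := by omega
    rw [e1, e2, e3]; omega

theorem small_lt {a : ℕ} (h : a < 2 ^ 50) : a < 2 ^ 920 :=
  lt_of_lt_of_le h (Nat.pow_le_pow_right (by norm_num) (by norm_num))

theorem rotLoop_spec (m top : ℕ) (htop : top < 70368744177663) (d : ℕ → ℕ)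
    (hd : ∀ e < m, d e < 70368744177663) :
    ∀ (l : ℕ) (X : ℕ → ℕ), (∀ e < m, X e < 70368744177663) →
      rotLoop (P 920 m (fun _ => 1)) (P 920 m (fun _ => 70368744177663))
        (P 920 m (fun _ => 70368744177664)) (P 920 m (fun e => 70368744177663 - d e))
        (P 920 m (fun _ => 70368744177664 + top)) l (P 920 m X) = true →
      ∀ e < m, ∀ k, k < l → d e < rot^[k + 1] (X e) ∧ rot^[k + 1] (X e) ≤ top := by
  intro l
  induction l with
  | zero => intro X _ _ e _ k hk; exact absurd hk (Nat.not_lt_zero k)
  | succ l ih =>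
    intro X hX h e he k hk
    have c50 : ∀ a, a < 70368744177663 → a < 2 ^ 920 := fun a ha =>
      small_lt (lt_trans ha (by norm_num))
    have hrot : ((P 920 m X * 2) &&& P 920 m (fun _ => 70368744177663)) +
        ((P 920 m X >>> 45) &&& P 920 m (fun _ => 1)) = P 920 m (fun e => rot (X e)) := by
      rw [P_mul, P_land (by norm_num) (fun e he => small_lt (by have := hX e he; norm_num; omega))
          (fun _ _ => small_lt (by norm_num)),
        P_shift_land (by norm_num) (fun e he => c50 _ (hX e he)) (by norm_num)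
          (fun _ _ => Nat.one_lt_two_pow (by norm_num)), P_add]
      rfl
    rw [rotLoop_succ, hrot, P_add,
      P_sub _ _ _ _ (fun e he => by have := rot_lt (hX e he); omega),
      P_land (by norm_num) (fun e he => small_lt (by
        have := rot_lt (hX e he); have := hd e he; norm_num; omega))
        (fun _ _ => small_lt (by norm_num)),
      P_land (by norm_num) (fun e he => small_lt (by norm_num; omega))
        (fun _ _ => small_lt (by norm_num)),
      Bool.and_eq_true, Bool.and_eq_true, Nat.beq_eq, Nat.beq_eq] at h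
    obtain ⟨⟨h1, h2⟩, h3⟩ := h
    have hk46 : ∀ a, a &&& 70368744177664 = 70368744177664 → 70368744177664 ≤ a := by
      intro a ha
      rw [← ha]; exact Nat.and_le_left
    have h1' := P_inj (fun e _ => lt_of_le_of_lt Nat.and_le_right (small_lt (by norm_num)))
      (fun _ _ => small_lt (by norm_num)) h1 e he
    have h2' := P_inj (fun e _ => lt_of_le_of_lt Nat.and_le_right (small_lt (by norm_num)))
      (fun _ _ => small_lt (by norm_num)) h2 e he
    have h1'' := hk46 _ h1'
    have h2'' := hk46 _ h2'
    have hde := hd e he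
    cases k with
    | zero =>
      simp only [Function.iterate_succ, Function.iterate_zero, Function.comp, id] at *
      omega
    | succ k =>
      have := ih (fun e => rot (X e)) (fun e he => rot_lt (hX e he)) h3 e he k
        (Nat.lt_of_succ_lt_succ hk)
      rw [Function.iterate_succ_apply]
      exact this

/-- the `e`-th exponent stored in `code` -/
def dig (code e : ℕ) : ℕ := (code >>> (48 * e)) % 281474976710656

theorem spr_spec (k : ℕ → Bool) (lo code : ℕ) : ∀ (m prev acc : ℕ),
    spr k lo code m prev acc = true →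
      lo ≤ prev ∧ (∀ e < m, lo ≤ dig code e ∧ dig code e < prev) ∧
      (∀ e e', e < e' → e' < m → dig code e < dig code e') ∧
      k (acc * (2 ^ 920) ^ m + P 920 m (dig code)) = true := by
  intro m
  induction m with
  | zero =>
    intro prev acc h
    rw [spr_zero, Bool.and_eq_true] at h
    refine ⟨Nat.le_of_ble_eq_true h.1, fun e he => absurd he (Nat.not_lt_zero e),
      fun e e' _ he' => absurd he' (Nat.not_lt_zero e'), ?_⟩
    rw [P_zero, pow_zero, mul_one, add_zero]
    exact h.2
  | succ m ih =>
    intro prev acc h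
    rw [spr_succ, Bool.and_eq_true] at h
    obtain ⟨h1, h2⟩ := h
    have h1' : dig code m + 1 ≤ prev := Nat.le_of_ble_eq_true h1
    obtain ⟨g1, g2, g3, g4⟩ := ih _ _ h2
    have g1' : lo ≤ dig code m := g1
    refine ⟨by omega, ?_, ?_, ?_⟩
    · intro e he
      rcases Nat.lt_succ_iff_lt_or_eq.1 he with h5 | h5
      · have := g2 e h5
        have h6 : dig code e < dig code m := this.2
        exact ⟨this.1, by omega⟩
      · subst h5; exact ⟨g1', by omega⟩
    · intro e e' hee he'
      rcases Nat.lt_succ_iff_lt_or_eq.1 he' with h5 | h5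
      · exact g3 e e' hee h5
      · subst h5; exact (g2 e hee).2
    · rw [P_succ_top]
      have h7 : (acc <<< 920) + (code >>> (48 * m)) % 281474976710656 =
          acc * 2 ^ 920 + dig code m := by
        rw [Nat.shiftLeft_eq]; rfl
      rw [h7] at g4
      have h8 : (acc * 2 ^ 920 + dig code m) * (2 ^ 920) ^ m + P 920 m (dig code) =
          acc * (2 ^ 920) ^ (m + 1) + (P 920 m (dig code) + dig code m * (2 ^ 920) ^ m) := by
        generalize (2:ℕ) ^ 920 = Z
        rw [pow_succ]; ring
      rw [← h8]
      exact g4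

end Pool.Agent.Helper36.Sidon
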