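import Pool.Agent.Helper36.Sidon.Batch

set_option autoImplicit false
set_option exponentiation.threshold 2000

/-!
# Checking the tables and the order of `ψ`
-/

namespace Pool.Agent.Helper36.Sidon

/-- multiplication of representatives -/
def mulK (mk1 a b : ℕ) : ℕ :=
  (((a * b) &&& (2 ^ 460 - 1)) + (((a * b) >>> 460) &&& (2 ^ 460 - 1)) * 1025) &&& mk1

/-- repeated squaring -/
def sqn (mk1 : ℕ) : ℕ → ℕ → ℕ
  | 0, a => a
  | n + 1, a => sqn mk1 n (mulK mk1 a a)

/-- the list continues the sequence of squares of `a` -/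
def chkSq (mk1 : ℕ) : ℕ → List ℕ → Bool
  | _, [] => true
  | a, b :: L => Nat.beq (mulK mk1 a a) b && chkSq mk1 b L

/-- the list consists of the traces of the powers of `x` -/
def chkTr (mk1 xq : ℕ) : List ℕ → ℕ → ℕ → Bool
  | [], _, _ => true
  | τ :: L, p, w => Nat.beq ((p + w) &&& mk1) τ && chkTr mk1 xq L (mulK mk1 p xq) (w * 1024)

variable {K : Type*} [Field K] [CharP K 2]

theorem mulK_rep {x : K} (hx : x ^ 46 = x + 1) {a b : ℕ} {A B : K} (ha : Rep x 10 46 2 a A)
    (hb : Rep x 10 46 1 b B) : Rep x 10 46 1 (mulK (mk 10 46) a b) (A * B) := by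
  unfold mulK
  apply fold_rep hx
  exact ha.mul hb (by norm_num) (by norm_num)

theorem mulK_rep' {x : K} (hx : x ^ 46 = x + 1) {a b : ℕ} {A B : K} (ha : Rep x 10 46 1 a A)
    (hb : Rep x 10 46 1 b B) : Rep x 10 46 1 (mulK (mk 10 46) a b) (A * B) :=
  mulK_rep hx (ha.mono le_rfl (by norm_num)) hb

theorem sqn_rep {x : K} (hx : x ^ 46 = x + 1) : ∀ (n a : ℕ) (A : K), Rep x 10 46 1 a A →
    Rep x 10 46 1 (sqn (mk 10 46) n a) (A ^ (2 ^ n)) := by
  intro n
  induction n with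
  | zero => intro a A h; simpa [sqn] using h
  | succ n ih =>
    intro a A h
    have h1 := ih _ _ (mulK_rep' hx h h)
    rw [pow_succ, mul_comm (2 ^ n) 2, pow_mul, sq]
    exact h1

theorem add_one_rep {x : K} {a : ℕ} {A : K} (h : Rep x 10 46 1 a A) :
    Rep x 10 46 2 (a + 1) (A + 1) :=
  h.add (Rep.one x 10 46 (by norm_num))

theorem chkSq_rep {x ψ : K} (hx : x ^ 46 = x + 1) : ∀ (L : List ℕ) (j a : ℕ),
    Rep x 10 46 1 a (ψ ^ (2 ^ j)) → chkSq (mk 10 46) a L = true →
      TRep x ψ ((a :: L).map (fun t => t + 1)) j := by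
  intro L
  induction L with
  | nil => intro j a h _; exact ⟨add_one_rep h, trivial⟩
  | cons b L ih =>
    intro j a h hc
    unfold chkSq at hc
    rw [Bool.and_eq_true, Nat.beq_eq] at hc
    refine ⟨add_one_rep h, ih (j + 1) b ?_ hc.2⟩
    have h1 := mulK_rep' hx h h
    rw [hc.1, ← sq, ← pow_mul, ← pow_succ] at h1
    exact h1

omit [CharP K 2] in
theorem pow_rep (x : K) {i : ℕ} (hi : i < 46) : Rep x 10 46 1 (1024 ^ i) (x ^ i) := by
  refine ⟨fun k => if k = i then 1 else 0, fun k => by dsimp only; split_ifs <;> simp, ?_, ?_⟩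
  · rw [Finset.sum_eq_single i]
    · simp
    · intro b _ hb; simp [hb]
    · intro h; exact absurd (Finset.mem_range.2 hi) h
  · rw [Finset.sum_eq_single i]
    · simp
    · intro b _ hb; simp [hb]
    · intro h; exact absurd (Finset.mem_range.2 hi) h

theorem chkTr_rep {x : K} (hx : x ^ 46 = x + 1) {xq : ℕ} (hxq : Rep x 10 46 1 xq (x ^ (2 ^ 23))) :
    ∀ (L : List ℕ) (i p : ℕ), i + L.length ≤ 46 → Rep x 10 46 1 p ((x ^ i) ^ (2 ^ 23)) →
      chkTr (mk 10 46) xq L p (1024 ^ i) = true → TrRep x L i := by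
  intro L
  induction L with
  | nil => intro i p _ _ _; trivial
  | cons τ L ih =>
    intro i p hi hp hc
    unfold chkTr at hc
    rw [Bool.and_eq_true, Nat.beq_eq] at hc
    rw [List.length_cons] at hi
    have hi' : i < 46 := by omega
    refine ⟨?_, ih (i + 1) (mulK (mk 10 46) p xq) (by omega) ?_ ?_⟩
    · have h1 := (hp.add (pow_rep x hi')).mask (by norm_num) (by norm_num)
      rwa [hc.1] at h1
    · have h1 := mulK_rep' hx hp hxq
      rw [← mul_pow, ← pow_succ] at h1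
      exact h1
    · rw [pow_succ]; exact hc.2

omit [Field K] [CharP K 2] in
theorem digits_sum {B : ℕ} (hB : 0 < B) : ∀ (d n : ℕ), n < B ^ d →
    n = ∑ i ∈ Finset.range d, (n / B ^ i % B) * B ^ i := by
  intro d
  induction d with
  | zero => intro n hn; simpa using hn
  | succ d ih =>
    intro n hn
    rw [Finset.sum_range_succ']
    have h1 : n / B < B ^ d := by
      rw [Nat.div_lt_iff_lt_mul hB]; rwa [pow_succ] at hn
    have h2 := ih (n / B) h1
    have h3 : ∑ i ∈ Finset.range d, (n / B ^ (i + 1) % B) * B ^ (i + 1) = B * (n / B) := by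
      conv_rhs => rw [h2]
      rw [Finset.mul_sum]
      apply Finset.sum_congr rfl
      intro i _
      rw [Nat.div_div_eq_div_mul, ← pow_succ']
      ring
    rw [h3, pow_zero, Nat.div_one, mul_one]
    exact (Nat.div_add_mod n B).symm

theorem exists_rep (x : K) {n : ℕ} (hn : n < 2 ^ 460) (hm : n &&& mk 10 46 = n) :
    ∃ y, Rep x 10 46 1 n y := by
  have h1 : Rep x 10 46 1023 n (∑ i ∈ Finset.range 46, ((n / (2 ^ 10) ^ i % 2 ^ 10 : ℕ) : K) * x ^ i) := by
    refine ⟨fun i => n / (2 ^ 10) ^ i % 2 ^ 10, fun i => ?_, ?_, rfl⟩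
    · have : n / (2 ^ 10) ^ i % 2 ^ 10 < 2 ^ 10 := Nat.mod_lt _ (by norm_num)
      dsimp only
      omega
    · exact digits_sum (by norm_num) 46 n (by rw [pow460]; exact hn)
  have h2 := h1.mask (by norm_num) (by norm_num)
  rw [hm] at h2
  exact ⟨_, h2⟩

/-- `ψ ^ e` as computed by the program -/
noncomputable def powK (mk1 : ℕ) (TP : List ℕ) (e : ℕ) : ℕ :=
  expLoop 1 (2 ^ 460 - 1) mk1 (2 ^ 460 - 1) TP e 1

theorem P_one (z : ℕ) (f : ℕ → ℕ) : P z 1 f = f 0 := by simp [P]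

theorem powK_rep {x ψ : K} {TP TR : List ℕ} (hT : Tab x ψ TP TR) {e : ℕ} (he : e < 2 ^ 46) :
    Rep x 10 46 1 (powK (mk 10 46) TP e) (ψ ^ e) := by
  have h1 := (expLoop_spec 1 (fun _ => e) (fun _ _ => lt_trans he
    (Nat.pow_lt_pow_right (by norm_num) (by norm_num))) TP hT.bTP 0 (by rw [hT.lTP]; norm_num)
    (fun _ => 1) (fun _ _ => by norm_num)).1
  simp only [P_one, Nat.shiftRight_zero] at h1
  unfold powK
  rw [h1]
  have h6 := expS_rep hT.hx ψ e TP 0 1 hT.hTP (by
    rw [pow_zero, Nat.mod_one, pow_zero]; exact Rep.one x 10 46 (by norm_num))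
  rw [hT.lTP, zero_add, Nat.mod_eq_of_lt he] at h6
  exact h6

theorem pow_eq_one_of_check {x ψ : K} {TP TR : List ℕ} (hT : Tab x ψ TP TR) {e : ℕ}
    (he : e < 2 ^ 46) (h : powK (mk 10 46) TP e = 1) : ψ ^ e = 1 := by
  have h1 := powK_rep hT he
  rw [h] at h1
  exact h1.unique (by norm_num) (Rep.one x 10 46 (by norm_num)) (by norm_num)

theorem pow_ne_one_of_check {x ψ : K} {TP TR : List ℕ} (hT : Tab x ψ TP TR) {e s : ℕ}
    (he : e < 2 ^ 46) (hs : s < 2 ^ 460) (hs' : s &&& mk 10 46 = s)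
    (h : mulK (mk 10 46) (powK (mk 10 46) TP e + 1) s = 1) : ψ ^ e ≠ 1 := by
  intro h1
  obtain ⟨σ, hσ⟩ := exists_rep x hs hs'
  have h2 := mulK_rep hT.hx (add_one_rep (powK_rep hT he)) hσ
  rw [h, h1, add_self', zero_mul] at h2
  have h3 := h2.unique (by norm_num) (Rep.one x 10 46 (by norm_num)) (by norm_num)
  exact zero_ne_one h3

end Pool.Agent.Helper36.Sidon
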